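import Pool.Agent.Work.MP_841263_kk.Interface

/-!
# Block KCI: coordinates of the semistable objects of phase `φ` in a nearby tube
-/

set_option autoImplicit false

open CategoryTheory CategoryTheory.Limits CategoryTheory.Pretriangulated
open scoped ZeroObject Topology
open Filter

namespace Pool.Align

open Pool.Stab Pool.Tube

universe v u

/-- Sign principle. -/
lemma KCI_sign {K : Type u} [AddCommGroup K] {B : K →+ K →+ ℤ} {im : K →+ ℝ} {ε : K} {n : ℕ}
    {β : Fin n → K} (hL : LatHyp B im ε) (hR : SimpleRoots B im ε β) {x : K} (hx : B x x ≤ 2) :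
    ∃ (k : ℤ) (c : Fin n → ℕ), x = k • ε + ∑ l, (c l : ℤ) • β l ∨
      x = k • ε - ∑ l, (c l : ℤ) • β l := by
  rcases lt_trichotomy (im x) 0 with h | h | h
  · obtain ⟨k, c, hc⟩ := hR.nonneg (-x) (by simpa using hx) (by rw [map_neg]; linarith)
    refine ⟨-k, c, Or.inr ?_⟩
    rw [neg_smul, ← neg_add', ← hc, neg_neg]
  · have h0 : B x x = 0 := by
      have h1 := hL.psd.nonneg x
      obtain ⟨r, hr⟩ := hL.even x
      have h2 : B x x ≠ 2 := fun h3 => hL.imroot x h3 h
      omega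
    obtain ⟨k, hk⟩ := hL.imrad x (hL.psd.mem_radical_of_self h0) h
    exact ⟨k, fun _ => 0, Or.inl (by simpa using hk)⟩
  · obtain ⟨k, c, hc⟩ := hR.nonneg x hx h
    exact ⟨k, c, Or.inl hc⟩

/-- Nonnegative combinations. -/
lemma KCI_sum {K : Type u} [AddCommGroup K] (y : K →+ ℝ) {n : ℕ} {β : Fin n → K}
    (hy : ∀ l, 0 ≤ y (β l)) (c : Fin n → ℕ) (h0 : y (∑ l, (c l : ℤ) • β l) = 0) (i : Fin n)
    (hi : 0 < y (β i)) : c i = 0 := by
  have h1 : y (∑ l, (c l : ℤ) • β l) = ∑ l, (c l : ℝ) * y (β l) := by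
    rw [map_sum]
    refine Finset.sum_congr rfl fun l _ => ?_
    rw [map_zsmul, zsmul_eq_mul]
    push_cast
    ring
  rw [h1] at h0
  have h2 := (Finset.sum_eq_zero_iff_of_nonneg
    (fun l _ => mul_nonneg (Nat.cast_nonneg (c l)) (hy l))).1 h0 i (Finset.mem_univ i)
  rcases mul_eq_zero.1 h2 with h3 | h3
  · exact_mod_cast h3
  · exact absurd h3 hi.ne'

variable {C : Type u} [Category.{v} C] [Preadditive C] [HasZeroObject C] [HasShift C ℤ]
  [∀ n : ℤ, (shiftFunctor C n).Additive] [Pretriangulated C] [IsTriangulated C] [Linear ℂ C]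
  [∀ n : ℤ, (shiftFunctor C n).Linear ℂ]

/-- Stable objects have norm at most two. -/
lemma KCI_norm (h : EllipticSetting C) {σ : StabCond C} {φ : ℝ} {U : C} (hU : σ.Stable φ U) :
    eulerForm h.k3 (cls U) (cls U) ≤ 2 := by
  have hUs : SimpleIn (σ.sl.Heart (φ - 1)) U := by
    refine StabCond.Stable.simple ?_
    have e : φ - 1 + 1 = φ := by ring
    rw [e]
    exact hU
  rw [eulerForm_cls]
  exact hUs.eulerChar_self_le h.k3

omit [IsTriangulated C] [Linear ℂ C] [∀ n : ℤ, (shiftFunctor C n).Linear ℂ] in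
/-- Objects of phase `φ` have `im φ = 0`. -/
lemma KCI_im (σ : StabCond C) {φ : ℝ} {U : C} (hU : σ.sl.P φ U) : σ.im φ (cls U) = 0 := by
  by_cases h0 : IsZero U
  · rw [cls_of_isZero h0, map_zero]
  · obtain ⟨-, -, h3⟩ := σ.polar φ hU h0
    rw [h3, sub_self, mul_zero, Real.sin_zero, mul_zero]

/-- Block KCI. -/
theorem p_KCI : Stmt_KCI C := by
  intro h σ φ r τ n α hN T hT k c hc i hi
  have hfinK : Module.Finite ℤ (K0 C) := h.finite
  have hfreeK : Module.Free ℤ (K0 C) := h.free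
  have hL := c_LHY C h τ φ (-r) hN.frame.toTubeHyp
  have hR := hN.frame.toSimpleRoots
  have key : ∃ (k' : ℤ) (c' : Fin n → ℤ), cls T = k' • (-r) + ∑ l, c' l • α l ∧ c' i = 0 := by
    have hg := σ.gen_stable hT
    clear hT hc
    induction hg with
    | zero h0 => exact ⟨0, fun _ => 0, by rw [cls_of_isZero h0]; simp, rfl⟩
    | @of U hU =>
      have him := KCI_im σ hU.1
      obtain ⟨k', c', hc'⟩ := KCI_sign hL hR (KCI_norm h hU)
      have hr : σ.im φ (k' • (-r)) = 0 := by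
        rw [map_zsmul, map_neg, hN.im_r, neg_zero, smul_zero]
      rcases hc' with hc' | hc'
      · refine ⟨k', fun l => (c' l : ℤ), hc', ?_⟩
        rw [hc', map_add, hr, zero_add] at him
        have h3 := KCI_sum (σ.im φ) hN.nonneg c' him i hi
        show ((c' i : ℕ) : ℤ) = 0
        rw [h3, Nat.cast_zero]
      · refine ⟨k', fun l => -(c' l : ℤ), ?_, ?_⟩
        · rw [hc', sub_eq_add_neg, ← Finset.sum_neg_distrib]
          congr 1
          refine Finset.sum_congr rfl fun l _ => ?_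
          rw [neg_smul]
        · rw [hc', map_sub, hr, zero_sub, neg_eq_zero] at him
          have h3 := KCI_sum (σ.im φ) hN.nonneg c' him i hi
          show -((c' i : ℕ) : ℤ) = 0
          rw [h3, Nat.cast_zero, neg_zero]
    | ext hT _ _ h1 h2 =>
      obtain ⟨k₁, c₁, e₁, z₁⟩ := h1
      obtain ⟨k₂, c₂, e₂, z₂⟩ := h2
      refine ⟨k₁ + k₂, fun l => c₁ l + c₂ l, ?_, by show c₁ i + c₂ i = 0; rw [z₁, z₂, add_zero]⟩
      rw [cls_mk hT, e₁, e₂, add_smul]
      simp only [add_smul, Finset.sum_add_distrib]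
      abel
  obtain ⟨k', c', e', z'⟩ := key
  have h1 : (k - k') • (-r) + ∑ l, (c l - c' l) • α l = 0 := by
    simp only [sub_smul, Finset.sum_sub_distrib]
    have h2 : k • (-r) + ∑ l, c l • α l = k' • (-r) + ∑ l, c' l • α l := hc.symm.trans e'
    rw [sub_add_sub_comm, h2, sub_self]
  have h3 := (hR.indep _ _ h1).2 i
  omega

end Pool.Align
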