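import Pool.Agent.Work.MP_841263_kk.Interface
import Pool.Agent.Work.MP_841263_r3.Block

/-!
# Block KFC: `P(φ)` is abelian of finite length
-/

open CategoryTheory CategoryTheory.Limits CategoryTheory.Pretriangulated
open scoped ZeroObject Topology
open Filter

set_option backward.isDefEq.respectTransparency false
set_option backward.defeqAttrib.useBackward true

namespace Pool.Align

open Pool.Stab Pool.Tube

universe v u

theorem p_KFC {C : Type u} [Category.{v} C] [Preadditive C] [HasZeroObject C] [HasShift C ℤ]
    [∀ n : ℤ, (shiftFunctor C n).Additive] [Pretriangulated C] [IsTriangulated C] [Linear ℂ C]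
    [∀ n : ℤ, (shiftFunctor C n).Linear ℂ] : Stmt_KFC C := by
  intro h σ φ
  exact Pool.Blk.finCat_P h σ φ

end Pool.Align
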