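import Mathlib
import Pool.Agent.Work.MP_841263_pt.Interface

/-!
# A radical semistable object has morphisms to radical objects above it (helper13), lemma (K)

MP_841263_ag, path connectedness of `Stab`. Result (`Stmt_KGP`): `N ∈ P(φ)` nonzero of radical class, `E` with phases in
`(φ - 1, φ + 1)` of radical class with `0 < im`; then there is a nonzero morphism `N ⟶ E`. Used in SEP.

RULES: one file `Pool/Agent/Work/MP_841263_kk/B_<ID>.lean` per block, `import Pool.Agent.Work.MP_841263_kk.Interface`, the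
`open`, `namespace Pool.Align` and `universe` lines of this file, theorem `p_<ID> : Stmt_X → Stmt_Y → Stmt_<ID>` with exactly the
statements of the column `uses` as hypotheses, in this order (category statements `Stmt_X C`). `PGA PLO PTD PBU PNP PGE PRK` are
statements of `MP_841263_pt/Interface.lean`, `LBL` of `MP_841263_al/Interface.lean`. All `c_<ID> C` of
`MP_841263_tu/All.lean`, `All2.lean` are PROVED and may be used freely, as everything in `MP_841263_al/B_TUP.lean`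
(`TUP_generic`) and `MP_841263_al/B_SPE.lean` (`SPE_sat`), which may be imported. Auxiliary lemmas with the name of the block in
front. Models: `MP_841263_tu/B_*.lean`, `MP_841263_al/B_*.lean`.
-/

open CategoryTheory CategoryTheory.Limits CategoryTheory.Pretriangulated
open scoped ZeroObject Topology
open Filter

namespace Pool.Align

open Pool.Stab Pool.Tube

universe v u

section Lattice

/-- KLT (120 lines). `exists_step` (`st/Radical2.lean`): `im (radical) ⊆ ℤ g`; `hB.finite_mod_radical 2`: a finite set `F` of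
representatives, modulo the radical, of all `x` with `B x x ≤ 2`. So the numbers `w x` for such `x` are the finitely many
`w f` (`w = 0` on the radical), `|w x| ≤ M`. First part: the numbers `im x` in `(0, 1]` for such `x` are in a finite set
(`finite_Ioc_progression`, see `StabCond.exists_gap`), so `0 < im x` gives `g₁ ≤ im x`; `η M < g₁`. Second part: if `im x = 0`,
`0 < re x ≤ re r`, `x = f + s`, `s` in the radical, `im s = - im f`: two such `s` for the same `f` differ by `s'` in the radical with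
`im s' = 0`. As `im` is not zero on the radical (rank 2) and `im r = 0`, `a s' = b r` with `a ≠ 0`; the elements `s'` of the
radical with `im s' = 0` are the multiples of one `r₀`, `re r₀ ≠ 0` (they form a subgroup of rank 1), so `re x` is in a finite
set: the minimum `g₂ > 0`; `η M ≤ κ g₂`. -/
def Stmt_KLT : Prop := ∀ (K : Type u) [AddCommGroup K] [Module.Finite ℤ K] [Module.Free ℤ K]
  (B : K →+ K →+ ℤ) (im re w : K →+ ℝ) (r : K), IsPSD B →
  Module.finrank ℤ (radical B) = 2 → r ∈ radical B → im r = 0 → 0 < re r →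
  (∃ s ∈ radical B, im s ≠ 0) → (∀ s ∈ radical B, w s = 0) → ∀ κ : ℝ, 0 < κ →
  ∃ η₀ : ℝ, 0 < η₀ ∧ ∀ η : ℝ, 0 < η → η ≤ η₀ →
    (∀ x, B x x ≤ 2 → 0 < im x → 0 < im x + η * w x) ∧
    (∀ x, B x x ≤ 2 → im x = 0 → 0 < re x → re x ≤ re r → η * |w x| ≤ κ * re x)

/-- KRC (40 lines; uses LBL). `x = a • δ + b • ∑ m l α l` (`Labels.gen`), `im (∑ m l α l) > 0` and `im δ = 0`, so `b > 0`; compare the
coordinates (`indep`): `c i = b m i ≥ 1` (`one_le`). -/
def Stmt_KRC : Prop := ∀ (K : Type u) [AddCommGroup K] [Module.Finite ℤ K] [Module.Free ℤ K]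
  (B : K →+ K →+ ℤ) (im : K →+ ℝ) (δ : K), LatHyp B im δ → ∀ (n : ℕ) (α : Fin n → K),
  SimpleRoots B im δ α → ∀ x ∈ radical B, 0 < im x → ∀ (k : ℤ) (c : Fin n → ℤ),
    x = k • δ + ∑ i, c i • α i → ∀ i, 1 ≤ c i

/-- KPR (60 lines). `r ≠ 0` in `K` free of finite rank is `m • r₀` with `r₀` primitive (choose a basis coordinate vector of `r` and divide by
the gcd, or take `m` maximal with `r = m • r₀`: bounded by a nonzero coordinate). `r₀` is in the radical (`SPE_sat`: the radical is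
saturated). `im r₀ = 0`, `re r₀ ≠ 0`; change the sign. -/
def Stmt_KPR : Prop := ∀ (K : Type u) [AddCommGroup K] [Module.Finite ℤ K] [Module.Free ℤ K]
  (B : K →+ K →+ ℤ) (im re : K →+ ℝ) (r : K), r ∈ radical B → im r = 0 → re r ≠ 0 →
  ∃ r₀ ∈ radical B, im r₀ = 0 ∧ 0 < re r₀ ∧ ∀ (x : K) (m : ℤ), r₀ = m • x → m = 1 ∨ m = -1

end Lattice

variable {C : Type u} [Category.{v} C] [Preadditive C] [HasZeroObject C] [HasShift C ℤ]
  [∀ n : ℤ, (shiftFunctor C n).Additive] [Pretriangulated C] [IsTriangulated C] [Linear ℂ C]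
  [∀ n : ℤ, (shiftFunctor C n).Linear ℂ]

/-- `τ` is a stability condition close to `σ` with a tube in the direction of the radical class `r`, `σ.re φ r > 0`: `-r` has phase
`φ + 1`. -/
structure NearTube (h : EllipticSetting C) (σ : StabCond C) (φ : ℝ) (r : K0 C) (τ : StabCond C)
    {n : ℕ} (α : Fin n → K0 C) : Prop where
  frame : Frame h τ φ (-r) α
  rad : ∀ s ∈ radical (eulerForm h.k3), τ.im φ s = σ.im φ s
  im_r : σ.im φ r = 0
  nonneg : ∀ i, 0 ≤ σ.im φ (α i)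
  /-- the points of the tube are `σ`-semistable of phase `φ + 1` -/
  point : ∀ Q, τ.Stable (φ + 1) Q → σ.sl.P (φ + 1) Q
  /-- on a line of `σ`-phase `φ` there is an object of `P(φ)` -/
  line : ∀ i, σ.im φ (α i) = 0 → ∃ (k : ℤ) (X : C), IsS τ φ (-r) α i k X ∧ σ.sl.P φ X

variable (C)

/-! ### Semistable objects of one phase -/

/-- KLO (60 lines; uses PGA). `ε` from PGA with `2 * |M|` in place of `M`. Let `Y` be an HN factor of `X`, of phase `χ`, `|χ - φ| ≤ 2ε ≤ 1/8`: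
`re φ (cls Y) = ‖Z Y‖ cos π(χ - φ) ≥ ‖Z Y‖ / 2` (`polar`), all real parts are `≥ 0` and their sum is `re φ (cls X) ≤ M`, so
`‖Z Y‖ ≤ 2 |M|`, PGA: `χ = φ`. All phases are `φ`: `In.P_of_singleton`. -/
def Stmt_KLO : Prop := ∀ (_ : EllipticSetting C) (σ : StabCond C) (φ M : ℝ),
  ∃ ε : ℝ, 0 < ε ∧ ε ≤ 1 / 16 ∧ ∀ X, σ.sl.In (Set.Icc (φ - 2 * ε) (φ + 2 * ε)) X →
    σ.re φ (cls X) ≤ M → σ.sl.P φ X

/-- KFC (80 lines). `P(φ)` is abelian of finite length, `re φ > 0` on nonzero objects (`polar`, or `re_neg_of_P` with `t = φ - 1`: `re (φ - 1) =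
- re φ`). `AbSub`: `kiq` from `exists_KIQ` in the heart `P((φ - 1, φ])` (`heart_ab`): `im (φ - 1) ≥ 0` on the heart and `= 0` exactly on
`P(φ)` (`P_of_im`, `im_of_P`), so kernel, image, cokernel of a map between objects of `P(φ)` are in `P(φ)` (`P_sub_quot`). `ext_mem`:
`P_of_im`. `fin`: a subobject `F` in `P(φ)` has `0 ≤ re φ (cls F) ≤ re φ (cls X)` and is a sum of stable classes (`gen_stable`)
from the finite set `σ.finite_classes` with real parts bounded below (`exists_eps`): finitely many sums. (helper42's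
`MP_841263_r3/Block.lean` contains `finCat_P`: if it is on main, import it and this block is one line.) -/
def Stmt_KFC : Prop := ∀ (_ : EllipticSetting C) (σ : StabCond C) (φ : ℝ),
  FinCat (σ.sl.P φ) (σ.re φ)

/-- KSE (150 lines; uses KFC). `A = P(φ)`. (a) By induction on `Gen (SimpleIn A) N` (`gen_simple`): there is a multiset `L` of objects, all
`SimpleIn A`, with `cls N` the sum of their classes, `N` in `Gen (fun Y => ∃ T ∈ L, Nonempty (Y ≅ T))`, and for every `F` with phases in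
`(φ, φ + 1)`, `χ(x, F) = 0` for all `x` with `im φ x = 0`, and `Hom(N, F) = 0`: `Orth T F` for all `T ∈ L`. For `N` simple: `Hom(N, F[p]) = 0`
for `p < 0` (phases), `p ≥ 2` (Serre duality and phases), `p = 0`, hence `p = 1` (`χ(N, F) = 0`; `N`, `F` are in one heart
`P((s, s + 1])` with `s < φ` close to `φ`, `Heart.eulerChar`). For `N' → N → N''`: `Hom(N'', F) ⊆ Hom(N, F)` (as `Hom(N'[1], F) = 0` by phases), so `N''` and
all its factors are orthogonal to `F`, so `Hom(N', F)` injects into `Hom(N''[-1], F) = 0` up to `Hom(N, F) = 0`; take `L = L' + L''`.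
(b) `𝓖 := Gen (fun Y => ∃ T ∈ L, Nonempty (Y ≅ T))`. If `Z` is simple and not isomorphic to an element of `L`: for `T ∈ L`, `χ(T, Z) = - ext¹ ≤ 0`
(`AbSub.simple_form_le`) and the sum over `L` is `χ(N, Z) = 0` (`cls N` in the radical), so `T` and `Z` are orthogonal in both
directions (`AbSub.orth`). (c) `Y ∈ P(φ)` is in `Gen (SimpleIn A)`, so by `exists_biprod_of_gen` (shifts of the elements of `L`, shifts of the
other simple objects, as in `AbSub.split` in `r/Comp.lean`) or by `exists_decomp_ext` it is `Y₁ ⊞ Y₂`, `Y₁ ∈ 𝓖`, `Y₂` orthogonal to `𝓖`; `finrank End = 1` makes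
one of them zero (`isZero_of_iso_biprod`), and a nonzero map from or to an object of `𝓖` excludes `Y₁ = 0`. -/
def Stmt_KSE : Prop := ∀ (h : EllipticSetting C) (σ : StabCond C) (φ : ℝ) (N : C),
  σ.sl.P φ N → cls N ∈ radical (eulerForm h.k3) → ∃ 𝓖 : C → Prop, 𝓖 N ∧
    (∀ X, 𝓖 X → σ.sl.P φ X) ∧
    (∀ X Y, 𝓖 X → σ.sl.P φ Y → Module.finrank ℂ (Y ⟶ Y) = 1 →
      ((∃ f : X ⟶ Y, f ≠ 0) ∨ ∃ f : Y ⟶ X, f ≠ 0) → 𝓖 Y) ∧
    ∀ F, σ.sl.In (Set.Ioo φ (φ + 1)) F → (∀ f : N ⟶ F, f = 0) →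
      (∀ x, σ.im φ x = 0 → eulerForm h.k3 x (cls F) = 0) → ∀ X, 𝓖 X → Orth X F

/-- KUQ (60 lines). `B`: `Hom(B, G) = 0`, because `N → B → G` is zero and `Hom(A[1], G) = 0` by phases; `Hom(G, B) = 0` by phases. `B`, `G` are in one
heart `P((s, s + 1])`, `s < φ` close to `φ` (`G` has finitely many phases), `Heart.eulerChar`: `χ(B, G) = - hom(B, G[1]) ≤ 0`. `A`: `χ(N, G) = 0` as
`cls N` is in the radical. -/
def Stmt_KUQ : Prop := ∀ (h : EllipticSetting C) (σ : StabCond C) (φ : ℝ) (N G : C),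
  σ.sl.P φ N → σ.sl.In (Set.Ioo φ (φ + 1)) G → (∀ f : N ⟶ G, f = 0) →
  cls N ∈ radical (eulerForm h.k3) →
  ∀ (A B : C) (a : A ⟶ N) (b : N ⟶ B) (c : B ⟶ A⟦(1 : ℤ)⟧), Triangle.mk a b c ∈ distTriang C →
    σ.sl.P φ A → σ.sl.P φ B →
    0 ≤ eulerForm h.k3 (cls A) (cls G) ∧ eulerForm h.k3 (cls B) (cls G) ≤ 0

/-- KRD (80 lines; uses PTD PBU PNP PGE). `ε` smaller than the `ε` of PTD and of PBU for `N` (all `P(φ)`-subobjects have `w ≤ 0`: `w (cls A) = w (cls N) - w (cls B)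
= - w (cls B)`), and so small that the finitely many phases of `E` are in `[φ - 1 + 2ε, φ + 1 - 2ε]`. `η₀` from PNP, `η` from PGE for
`im = σ.im φ`; `τ` from PNP. `N ∈ P_τ(≤ φ)` and `P_τ(≥ φ)`, so in `P_τ(φ)` (`In.inter`, `In.P_of_singleton`). `E`: `Near.up`, `Near.low`
(see `B_OPE.lean`). -/
def Stmt_KRD : Prop := ∀ (_ : EllipticSetting C) (σ : StabCond C) (φ : ℝ) (w : K0 C →+ ℝ)
  (N E : C), σ.sl.P φ N → w (cls N) = 0 →
  (∀ (A B : C) (a : A ⟶ N) (b : N ⟶ B) (c : B ⟶ A⟦(1 : ℤ)⟧), Triangle.mk a b c ∈ distTriang C →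
    σ.sl.P φ A → σ.sl.P φ B → 0 ≤ w (cls B)) →
  σ.sl.In (Set.Ioo (φ - 1) (φ + 1)) E →
  ∃ (τ : StabCond C) (η : ℝ), 0 < η ∧ τ.sl.P φ N ∧ τ.sl.In (Set.Ioo (φ - 1) (φ + 1)) E ∧
    (∀ x, τ.im φ x = σ.im φ x + η * w x) ∧ (∀ x, τ.re φ x = σ.re φ x) ∧
    ∀ x, τ.im φ x = 0 ↔ σ.im φ x = 0 ∧ w x = 0

/-! ### Tubes -/

/-- KSP (150 lines). Frame `σ, t, δ, α`; the coordinates of `cls G` are `c`; `Q` is a point of the line `i`. FIRST: for torsion free `G` and a
point `Q` (a nonzero object of `P(t + 1)` with radical class `δ`, `c_PTL C`): `Hom(Q, G) = 0`, `χ(Q, G) = 0`, so by `Heart.eulerChar`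
`hom(G, Q) = hom(Q, G[1])`: the two conclusions are equivalent. Strong induction on `N` with `im (cls G) < N ε` (`exists_gap`,
`gap_tf`, see `B_GN1.lean`: im drops by at least `ε` in both cases). (1) Some nonzero `f : G ⟶ X`, `IsS j l X`: `exists_KIQ`: `K → G → I`, `I → X → Q'`;
`I` is a nonzero subobject of the atomic `X` (`c_ATM C`): torsion free of class `α j + l' δ`, `IsS j l'`. If `j = i`: `Hom(I, Q) ≠ 0` (`c_ONE C`, from
the given `X' ⟶ Q`), and `Hom(I, Q) → Hom(G, Q)` is injective (`Hom(K[1], Q) = 0`). If `j ≠ i`: `K` is torsion free (its coordinate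
at `i` is `c i ≥ 1`, so it is not zero; `TF.sub`), induction: `Hom(Q, K[1]) ≠ 0`, and `Hom(Q, K[1]) → Hom(Q, G[1])` is injective (`Hom(Q, I) = 0`).
(2) Some nonzero `f : X ⟶ G`, `IsS j l X`: `f` is a monomorphism of the heart with cokernel `R₀` (`Stmt_MON` of `al`, proved in `B_MON.lean`, or its proof: the
kernel is zero as `X` is atomic and `G` torsion free); `T → R₀ → R` the torsion part (`exists_torsion`), `X' → G → R` (octahedron), `X → X' → T`: `X'` is torsion free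
(`TF.sub`) of class `α j + l' δ`: `IsS j l'`; `R` is zero or torsion free with `im` smaller. If `j = i`: `hom(Q, X'[1]) = hom(X', Q) ≠ 0`, and
`Hom(Q, X'[1]) → Hom(Q, G[1])` is injective (`Hom(Q, R) = 0`). If `j ≠ i`: `R` has coordinate `c i ≥ 1` at `i`, so it is not zero; induction:
`Hom(R, Q) ≠ 0`, and `Hom(R, Q) → Hom(G, Q)` is injective (`Hom(X'[1], Q) = 0`). (3) Neither, for all `j, l`: `χ(X, G) = - hom(X, G[1]) ≤ 0` for all `IsS j l X`,
so `χ(α j, cls G) ≤ 0` for all `j`, `χ(G, G) = ∑ c j χ(α j, G) ≤ 0` (`c ≥ 0` by `c_HCL C` and `indep`), so `cls G` is in the radical, `χ(X, G) = 0`, `Hom(X, G[1]) = 0`, `Hom(X, G[2]) = 0` by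
duality: `OrthS G`, `G` is zero (`c_ORT C`), contradiction. (EXI gives `IsS j l` objects for all `j, l`.) -/
def Stmt_KSP : Prop := ∀ (h : EllipticSetting C) (σ : StabCond C) (t : ℝ) (δ : K0 C) (n : ℕ)
  (α : Fin n → K0 C), Frame h σ t δ α → ∀ G, σ.TF t G → ∀ (k : ℤ) (c : Fin n → ℤ),
    cls G = k • δ + ∑ i, c i • α i → ∀ i, 1 ≤ c i → ∀ Q, σ.Stable (t + 1) Q →
      (∃ (l : ℤ) (X : C) (g : X ⟶ Q), IsS σ t δ α i l X ∧ g ≠ 0) →
      (∃ f : G ⟶ Q, f ≠ 0) ∧ ∃ f : Q ⟶ G⟦(1 : ℤ)⟧, f ≠ 0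

/-- KNF (100 lines; uses PLO KLO). `M = σ.re φ (cls N)`, `ε` smaller than the `ε` of PLO for `N` and of KLO for `M`. HN filtration of `N` for `τ`, last
step `N' → N → B`, `B ∈ P_τ(ψ)` nonzero, the phases of `N'` are `> ψ`: PLO with `U = Ioi ψ`: `N', B ∈ P_σ(φ)`. `N → B` is not zero (otherwise `B[-1]`
would be a direct summand of `N'`: `isZero` type lemma, `Hom(N'[1], B) = 0`). `B ∈ P_σ(φ)` and `Near ε τ σ`: `|ψ - φ| ≤ ε`. A `τ`-stable quotient `B' → B → X` in `P_τ(ψ)`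
(`KFC`-type statement, or induction on `gen_stable`: every nonzero object of `P_τ(ψ)` has a nonzero map to a stable object of
`P_τ(ψ)` with kernel in `P_τ(ψ)`). `B', X` have `σ`-phases in `[φ - 2ε, φ + 2ε]` (`Near ε σ τ`), so `re φ ≥ 0` for both, `re φ (cls X) ≤ re φ (cls B) ≤ M`:
KLO gives `X ∈ P_σ(φ)`. `N → B → X` is not zero (`B → X` and `N → B` are epimorphisms: `Hom(B'[1], X) = 0`, `Hom(N'[1], X) = 0` by `τ`-phases). -/
def Stmt_KNF : Prop := ∀ (_ : EllipticSetting C) (σ : StabCond C) (φ : ℝ) (N : C), σ.sl.P φ N →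
  ¬ IsZero N → ∃ ε : ℝ, 0 < ε ∧ ∀ τ : StabCond C, StabCond.Near ε σ τ → StabCond.Near ε τ σ →
    ∃ (ψ : ℝ) (X : C) (f : N ⟶ X), φ - 1 < ψ ∧ ψ < φ + 1 ∧ τ.Stable ψ X ∧ σ.sl.P φ X ∧ f ≠ 0

/-- KTB (200 lines; uses KLT PGE PNP KLO KNF). `w` from `TUP_generic` (kernel exactly the radical). `ρ = σ.re φ r`. `ε > 0` smaller than the `ε` of
KLO at `φ` and at `φ + 1` for `M = ρ`, than the one of KNF for `N`, and so small that the phases of `G` are in `[φ + 2ε, φ + 1 - 2ε]`, those of `F` in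
`[φ - 1 + 2ε, φ - 2ε]`. `κ = sin (π ε)`. KLT for `im = σ.im φ`, `re = σ.re φ` (`im` is not zero on the radical: `Z` is injective on it, rank 2; see
`Xreg`, `StabCond.orient_ne_zero`, `rankTwoLe_of_finrank`, `commensurable`): `η₀`; PNP: `η₁`; PGE with `min η₀ η₁`: `η`; `τ` from PNP with `η`. `τ.im φ = σ.im φ + η w`, `τ.re φ = σ.re φ`
(`ChargeMove`). `TubeHyp h τ φ (-r)`: `im0, re0` clear, `imroot`: `τ.im φ x = 0` gives `w x = 0` (PGE), so `x` is in the radical, not a root. `c_LHY C`, `c_BAS`: `α`, `Frame`.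
`nonneg`: if `σ.im φ (α i) < 0`, KLT for `- α i` gives `τ.im φ (α i) < 0`, against `pos`. `point`: `cls Q = - r` (`c_PTL C`), `Q ∈ P_τ(φ + 1)`, so `σ`-phases in
`[φ + 1 - ε, φ + 1 + ε]`, `σ.re (φ + 1) (cls Q) = ρ`: KLO at `φ + 1`. `line`: `σ.im φ (α i) = 0`: choose `k` with `0 < σ.re φ (α i - k • r) ≤ ρ`; `X` from `c_EXI C`,
`X ∈ P_τ(ψ)`, `φ < ψ < φ + 1`; `x = cls X`: `τ.im φ x = η w x ≤ κ re x`, `polar`: `sin π(ψ - φ) ≤ κ cos π(ψ - φ)`, so `cos > 0`, `sin π(ψ - φ) ≤ sin (π ε)`, `ψ - φ ≤ ε`;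
`σ`-phases in `[φ - ε, φ + 2ε]`, KLO at `φ`. `G`, `F`: `Near.up`, `Near.low` (see `B_OPE.lean`). `rad`: `w = 0` on the radical. -/
def Stmt_KTB : Prop := ∀ (h : EllipticSetting C) (σ : StabCond C) (φ : ℝ) (r : K0 C),
  r ∈ radical (eulerForm h.k3) → (∀ (x : K0 C) (m : ℤ), r = m • x → m = 1 ∨ m = -1) →
  σ.im φ r = 0 → 0 < σ.re φ r → ∀ N G F : C, σ.sl.P φ N → ¬ IsZero N →
    σ.sl.In (Set.Ioo φ (φ + 1)) G → σ.sl.In (Set.Ioo (φ - 1) φ) F →
    ∃ (τ : StabCond C) (n : ℕ) (α : Fin n → K0 C), NearTube h σ φ r τ α ∧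
      τ.sl.In (Set.Ioo φ (φ + 1)) G ∧ τ.sl.In (Set.Ioo (φ - 1) φ) F ∧
      ∃ (ψ : ℝ) (X : C) (f : N ⟶ X), φ - 1 < ψ ∧ ψ < φ + 1 ∧ τ.Stable ψ X ∧ σ.sl.P φ X ∧ f ≠ 0

/-- KCI (80 lines). `gen_stable`: `T` is an iterated extension of `σ`-stable objects of phase `φ`; the set of classes whose coordinates (with
respect to `-r, α`; unique by `indep`, existence by `span`) vanish at `i` is a subgroup (`Gen.cls_mem`), so let `T` be stable, `x = cls T`: norm `≤ 2` (`StabCond.Stable.cls_le`),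
`σ.im φ x = 0`. If `τ.im φ x = 0`: `x` is not a root (`imroot`), so (even, psd: `c_LHY C`) in the radical, `x = m • (-r)` (`imrad`). If `0 < τ.im φ x`: `x` has
coordinates `c ≥ 0` (`nonneg` of `SimpleRoots`), `0 = σ.im φ x = ∑ c j σ.im φ (α j)` (`σ.im φ r = 0`) with all terms `≥ 0`, so `c i = 0`. If `τ.im φ x < 0`: the same for `- x`. -/
def Stmt_KCI : Prop := ∀ (h : EllipticSetting C) (σ : StabCond C) (φ : ℝ) (r : K0 C)
  (τ : StabCond C) (n : ℕ) (α : Fin n → K0 C), NearTube h σ φ r τ α → ∀ T, σ.sl.P φ T →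
  ∀ (k : ℤ) (c : Fin n → ℤ), cls T = k • (-r) + ∑ i, c i • α i →
    ∀ i, 0 < σ.im φ (α i) → c i = 0

/-- KPL (200 lines; uses KSP KCI). A point `Q` of the line `i` means: `τ.Stable (φ + 1) Q` and a nonzero `X ⟶ Q` for some (all: `c_ONE C`) `IsS τ φ (-r) α i k X`. `Q[-1] ∈ P_σ(φ)` (`point`).
Let `I` be the set of all lines `i` with a point `Q` with `𝓖 (Q[-1])`. Objects with `finrank End = 1`: `τ`-stable objects
(`SimpleIn.finrank_end`), shifts of them, `IsS` objects (`c_SPH C`). (a) `I` is not empty: `X` is `τ`-stable of phase `ψ`. `ψ = φ`: `X = Q[-1]` up to isomorphism, `Q = X[1]` stable of phase `φ + 1`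
is a point of some line (`c_PTL C`). `ψ > φ`: `X` is torsion free (`tf_of_in`), with coordinates `c ≥ 0`, not all zero (`c_HCL C`, `0 < τ.im φ (cls X)`), `c j ≥ 1` for some `j`; take a point `Q` of the
line `j` (exists: cone of a nonzero `IsS j 0 ⟶ IsS j 1`, `c_TWO C`, `c_PNT C`): KSP gives `Q ⟶ X[1]` nonzero, so `Q[-1] ⟶ X` nonzero, and the closure property (third hypothesis) gives `𝓖 (Q[-1])`.
`ψ < φ`: `X[1]` is torsion free (phase `ψ + 1 ∈ (φ, φ + 1)`), KSP: `X[1] ⟶ Q` nonzero, `X ⟶ Q[-1]` nonzero. (b) If `j ∈ I`, `σ.im φ (α j) = 0`, `χ(α i, α j) = -1` then `i ∈ I`: `line` gives `Y`, `IsS j k`, `Y ∈ P_σ(φ)`; for every point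
`Q` of the line `j`: `hom(Q, Y[1]) = hom(Y, Q) ≠ 0` (`Heart.eulerChar`, `χ = 0`, `Hom(Q, Y) = 0`; `c_ONE C`), so `Q[-1] ⟶ Y` nonzero: with one `Q` we get `𝓖 Y`, then `𝓖 (Q[-1])` for all points of the line `j`; one of them is on
the line `i` (`c_ADJ C`, objects from `c_EXI C`). (c) If all `i ∈ I` had `σ.im φ (α i) = 0` then `I` would be closed under neighbours and not empty, so
everything: `irred` (from `c_LHY C`) for the subgroups generated by `-r` and `α i`, `i ∈ I`, resp. `i ∉ I` (`span`, `off`), as in `SPR` / `OF1`; but `0 < σ.im φ (α i)` for some `i`. -/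
def Stmt_KPL : Prop := ∀ (h : EllipticSetting C) (σ : StabCond C) (φ : ℝ) (r : K0 C)
  (τ : StabCond C) (n : ℕ) (α : Fin n → K0 C), NearTube h σ φ r τ α → ∀ 𝓖 : C → Prop,
  (∀ X, 𝓖 X → σ.sl.P φ X) →
  (∀ X Y, 𝓖 X → σ.sl.P φ Y → Module.finrank ℂ (Y ⟶ Y) = 1 →
    ((∃ f : X ⟶ Y, f ≠ 0) ∨ ∃ f : Y ⟶ X, f ≠ 0) → 𝓖 Y) →
  (∃ (ψ : ℝ) (X : C), φ - 1 < ψ ∧ ψ < φ + 1 ∧ τ.Stable ψ X ∧ 𝓖 X) →
  (∃ i, 0 < σ.im φ (α i)) →
  ∃ (i : Fin n) (Q : C), 0 < σ.im φ (α i) ∧ τ.Stable (φ + 1) Q ∧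
    (∃ (l : ℤ) (X : C) (g : X ⟶ Q), IsS τ φ (-r) α i l X ∧ g ≠ 0) ∧ 𝓖 (Q⟦(-1 : ℤ)⟧)

/-! ### The result -/

/-- KFI (150 lines; uses KRC KSE KTB KCI KPL KSP). Suppose `Hom(N, E) = 0`. `Hom(N, G) = 0` (`Hom(N, F[-1]) = 0` by phases). KSE: `𝓖`. Truncate `F` at `Ici φ`: `F₁ → F → F₂`, `F₁ ∈ P_σ(φ)` (phases in `(φ - 1, φ]`
and `≥ φ`), `F₂` with phases in `(φ - 1, φ)`. KTB for `N, G, F₂`: `τ, α`, and `f : N ⟶ X` nonzero, `X` `τ`-stable, so `finrank End X = 1`, `𝓖 X` by closure (`𝓖 N`). Coordinates with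
respect to `-r, α` (`span`): those of `cls E` are `≥ 1` (KRC with `im = τ.im φ`: `τ.im φ (cls E) = σ.im φ (cls E) > 0`, `rad`), those of `cls F₁` vanish at `i` if `0 < σ.im φ (α i)` (KCI), those
of `cls F₂` are `≤ 0` (`F₂[1]` is in the heart `P_τ((φ, φ + 1])`, `c_HCL C`), so those of `cls G = cls E - cls F₁ - cls F₂` are `≥ 1` at all `i` with `0 < σ.im φ (α i)`. There is such an `i` (`σ.im φ (cls E) > 0` is a combination of the
`σ.im φ (α i) ≥ 0`). KPL: `i`, `Q`, with `𝓖 (Q[-1])`. `G` is not zero, torsion free for `τ` (`tf_of_in`). KSP: `Q ⟶ G[1]` nonzero, so `Q[-1] ⟶ G` nonzero; but `Orth (Q[-1]) G`. -/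
def Stmt_KFI : Prop := ∀ (h : EllipticSetting C) (σ : StabCond C) (φ : ℝ) (r : K0 C),
  r ∈ radical (eulerForm h.k3) → (∀ (x : K0 C) (m : ℤ), r = m • x → m = 1 ∨ m = -1) →
  σ.im φ r = 0 → 0 < σ.re φ r → ∀ N E G F : C, σ.sl.P φ N → ¬ IsZero N →
    cls N ∈ radical (eulerForm h.k3) → cls E ∈ radical (eulerForm h.k3) →
    0 < σ.im φ (cls E) → ∀ (a : G ⟶ E) (b : E ⟶ F) (c : F ⟶ G⟦(1 : ℤ)⟧),
    Triangle.mk a b c ∈ distTriang C → σ.sl.In (Set.Ioo φ (φ + 1)) G →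
    σ.sl.In (Set.Ioc (φ - 1) φ) F →
    (∀ x, σ.im φ x = 0 → eulerForm h.k3 x (cls G) = 0) → ∃ f : N ⟶ E, f ≠ 0

/-- KGP (120 lines; uses PRK KPR KUQ KRD KFI), lemma (K). Strong induction on `Module.finrank ℤ (σ.im φ).ker`, for all `σ`. `cls N` is a nonzero radical class (`re φ (cls N) > 0`) with `im φ = 0`: KPR gives
`r`. Suppose `Hom(N, E) = 0`. `G → E → F` from `exists_trunc` at `Ioi φ`: `G` has phases in `(φ, φ + 1)`, `F` in `(φ - 1, φ]`; `Hom(N, G) = 0` as `Hom(N, F[-1]) = 0` by phases. If `χ(x, G) = 0` for all `x` with `im φ x = 0`: KFI. Otherwise let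
`w x = - χ(x, cls G)` (as a homomorphism to `ℝ`): `w = 0` on the radical, KUQ and KRD give `τ`, with `N ∈ P_τ(φ)`, `E` with phases in `(φ - 1, φ + 1)`, `τ.im φ (cls E) = σ.im φ (cls E) > 0`, and the rank of the kernel of `τ.im φ` is smaller (PRK):
induction. -/
def Stmt_KGP : Prop := ∀ (h : EllipticSetting C) (σ : StabCond C) (φ : ℝ) (N E : C),
  σ.sl.P φ N → ¬ IsZero N → cls N ∈ radical (eulerForm h.k3) →
  σ.sl.In (Set.Ioo (φ - 1) (φ + 1)) E → cls E ∈ radical (eulerForm h.k3) →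
  0 < σ.im φ (cls E) → ∃ f : N ⟶ E, f ≠ 0

end Pool.Align
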