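import Mathlib
import Pool.Agent.Work.MP_841263_kk.Interface

/-! # Block KFI: the case in which `G` is orthogonal to the kernel (helper68) -/

open CategoryTheory CategoryTheory.Limits CategoryTheory.Pretriangulated
open scoped ZeroObject Topology
open Filter

set_option backward.isDefEq.respectTransparency false
set_option backward.defeqAttrib.useBackward true
set_option linter.unusedSectionVars false

namespace Pool.Align

open Pool.Stab Pool.Tube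

universe v u

section

variable {C : Type u} [Category.{v} C] [Preadditive C] [HasZeroObject C] [HasShift C ℤ]
  [∀ n : ℤ, (shiftFunctor C n).Additive] [Pretriangulated C] [IsTriangulated C] [Linear ℂ C]
  [∀ n : ℤ, (shiftFunctor C n).Linear ℂ]

/-- Morphisms from an object of phase `φ` to the first term of a triangle. -/
lemma KFI_zero {σ : StabCond C} {φ : ℝ} {N E G F : C} {a : G ⟶ E} {b : E ⟶ F}
    {c : F ⟶ G⟦(1 : ℤ)⟧} (hT : Triangle.mk a b c ∈ distTriang C) (hN : σ.sl.P φ N)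
    (hF : σ.sl.In (Set.Ioc (φ - 1) φ) F) (h : ∀ f : N ⟶ E, f = 0) (f : N ⟶ G) : f = 0 := by
  obtain ⟨a', c', hT'⟩ := exists_invrot hT
  refine hom_zero_of_ext₂ hT' ?_ h f
  intro g
  refine Slicing.In.hom_zero (Slicing.in_of_P hN (Set.mem_singleton φ)) hF.shift_neg_one ?_ g
  rintro x hx _ ⟨y, hy, rfl⟩
  have h1 : x = φ := hx
  have h2 := hy.2
  show y - 1 < x
  linarith

/-- The part of phase `φ`. -/
lemma KFI_trunc {S : Slicing C} {φ : ℝ} {F : C} (hF : S.In (Set.Ioc (φ - 1) φ) F) :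
    ∃ (X Y : C) (f : X ⟶ F) (g : F ⟶ Y) (h : Y ⟶ X⟦(1 : ℤ)⟧),
      Triangle.mk f g h ∈ distTriang C ∧ S.P φ X ∧ S.In (Set.Ioo (φ - 1) φ) Y := by
  classical
  obtain ⟨l, hl, hI⟩ := hF
  obtain ⟨X, Y, f, g, h, hT, hX, hY⟩ := hl.trunc (Set.Ici φ) (isUpperSet_Ici _)
  refine ⟨X, Y, f, g, h, hT, ?_, ?_⟩
  · refine Slicing.In.P_of_singleton ⟨_, hX, ?_⟩
    intro χ hχ
    obtain ⟨h1, h2⟩ := List.mem_filter.1 hχ
    have h3 : φ ≤ χ := by simpa using h2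
    exact le_antisymm (hI χ h1).2 h3
  · refine ⟨_, hY, ?_⟩
    intro χ hχ
    obtain ⟨h1, h2⟩ := List.mem_filter.1 hχ
    have h3 : χ < φ := by simpa using h2
    exact ⟨(hI χ h1).1, h3⟩

theorem p_KFI : Stmt_KRC.{u} → Stmt_KSE C → Stmt_KTB C → Stmt_KCI C → Stmt_KPL C → Stmt_KSP C →
    Stmt_KFI C := by
  intro hKRC hKSE hKTB hKCI hKPL hKSP h σ φ r hr hprim him hre N E G F hN hN0 hNr hEr hEpos
    a b c hT hG hF hχ
  by_contra hcon
  push Not at hcon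
  have hfin := h.finite
  have hfree := h.free
  have hNG : ∀ f : N ⟶ G, f = 0 := KFI_zero hT hN hF hcon
  obtain ⟨𝓖, hGN, hGP, hGcl, hGorth⟩ := hKSE h σ φ N hN hNr
  obtain ⟨F₁, F₂, a₁, b₁, c₁, hT₁, hF₁, hF₂⟩ := KFI_trunc hF
  obtain ⟨τ, n, α, NT, hGτ, hFτ, ψ, X, f, hψ1, hψ2, hX, hXP, hf⟩ :=
    hKTB h σ φ r hr hprim him hre N G F₂ hN hN0 hG hF₂
  have hXend : Module.finrank ℂ (X ⟶ X) = 1 := by
    have hX' : SimpleIn (τ.sl.Heart (ψ - 1)) X := StabCond.Stable.simple (by simpa using hX)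
    exact hX'.finrank_end h.k3
  have hGX : 𝓖 X := hGcl N X hGN hXP hXend (Or.inl ⟨f, hf⟩)
  have Fr := NT.frame
  have hL : LatHyp (eulerForm h.k3) (τ.im φ) (-r) := c_LHY C h τ φ (-r) Fr.toTubeHyp
  -- coordinates
  obtain ⟨kE, cE, hcE⟩ := Fr.span (cls E)
  obtain ⟨k₁, d₁, hd₁⟩ := Fr.span (cls F₁)
  have hF₂' : τ.sl.Heart φ (F₂⟦(1 : ℤ)⟧) := hFτ.shift_one.mono (by
    rintro _ ⟨x, hx, rfl⟩
    have h1 := hx.1
    have h2 := hx.2
    exact ⟨by show φ < x + 1; linarith, by show x + 1 ≤ φ + 1; linarith⟩)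
  obtain ⟨k₂, d₂, hd₂⟩ := c_HCL C h τ φ (-r) n α Fr _ hF₂'
  have hE1 : ∀ i, 1 ≤ cE i := hKRC (K0 C) (eulerForm h.k3) (τ.im φ) (-r) hL n α
    Fr.toSimpleRoots (cls E) hEr (by rw [NT.rad _ hEr]; exact hEpos) kE cE hcE
  have hF₁0 : ∀ i, 0 < σ.im φ (α i) → d₁ i = 0 := hKCI h σ φ r τ n α NT F₁ hF₁ k₁ d₁ hd₁
  have hclsG : cls G = (kE - k₁ + k₂) • (-r) + ∑ i, (cE i - d₁ i + (d₂ i : ℤ)) • α i := by
    have e1 := cls_mk hT
    have e2 := cls_mk hT₁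
    have e3 : cls F₂ = - cls (F₂⟦(1 : ℤ)⟧) := by rw [cls_shift_one, neg_neg]
    have e4 : cls G = cls E - cls F₁ + cls (F₂⟦(1 : ℤ)⟧) := by
      rw [e1, e2, e3]
      abel
    rw [e4, hcE, hd₁, hd₂]
    simp only [add_smul, sub_smul, Finset.sum_add_distrib, Finset.sum_sub_distrib]
    abel
  have hex : ∃ i, 0 < σ.im φ (α i) := by
    by_contra hno
    push Not at hno
    have h0 : ∀ i, σ.im φ (α i) = 0 := fun i => le_antisymm (hno i) (NT.nonneg i)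
    rw [hcE, map_add, map_zsmul, map_neg, him, map_sum, neg_zero, smul_zero, zero_add,
      Finset.sum_eq_zero (fun i _ => by rw [map_zsmul, h0 i, smul_zero])] at hEpos
    exact lt_irrefl 0 hEpos
  obtain ⟨i, Q, hi, hQ, hXQ, hGQ⟩ :=
    hKPL h σ φ r τ n α NT 𝓖 hGP hGcl ⟨ψ, X, hψ1, hψ2, hX, hGX⟩ hex
  have hci : 1 ≤ cE i - d₁ i + (d₂ i : ℤ) := by
    rw [hF₁0 i hi]
    have h1 := hE1 i
    have h2 : (0 : ℤ) ≤ (d₂ i : ℤ) := by positivity
    linarith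
  have hG0 : ¬ IsZero G := by
    intro hz
    have e := cls_of_isZero hz
    rw [hclsG] at e
    have h1 := (Fr.indep _ _ e).2 i
    linarith
  have hTF : τ.TF φ G := τ.tf_of_in hGτ hG0
  obtain ⟨-, q, hq⟩ := hKSP h τ φ (-r) n α Fr G hTF (kE - k₁ + k₂)
    (fun i => cE i - d₁ i + (d₂ i : ℤ)) hclsG i hci Q hQ hXQ
  have hO : Orth (Q⟦(-1 : ℤ)⟧) G := hGorth G hG hNG hχ _ hGQ
  apply hq
  let e : (Q⟦(-1 : ℤ)⟧)⟦(1 : ℤ)⟧ ≅ Q := (shiftFunctorCompIsoId C (-1 : ℤ) 1 (by simp)).app Q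
  have h1 : e.hom ≫ q = 0 := orth_shift hO 1 1 (e.hom ≫ q)
  rw [← cancel_epi e.hom, h1, comp_zero]

end

end Pool.Align
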