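import Mathlib
import Pool.Agent.Work.MP_841263_kk.Interface

/-! # Lemma (K), block KGP: the final induction (helper3) -/

open CategoryTheory CategoryTheory.Limits CategoryTheory.Pretriangulated
open scoped ZeroObject Topology
open Filter

set_option backward.isDefEq.respectTransparency false
set_option backward.defeqAttrib.useBackward true
set_option linter.unusedSectionVars false

namespace Pool.Align

open Pool.Stab Pool.Tube

universe v u

section

variable {C : Type u} [Category.{v} C] [Preadditive C] [HasZeroObject C] [HasShift C ℤ]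
  [∀ n : ℤ, (shiftFunctor C n).Additive] [Pretriangulated C] [IsTriangulated C] [Linear ℂ C]
  [∀ n : ℤ, (shiftFunctor C n).Linear ℂ]

/-- The truncation of an object with phases in `(φ - 1, φ + 1)` above `φ`. -/
lemma KGP_trunc (S : Slicing C) {φ : ℝ} {E : C} (hE : S.In (Set.Ioo (φ - 1) (φ + 1)) E) :
    ∃ (G F : C) (a : G ⟶ E) (b : E ⟶ F) (c : F ⟶ G⟦(1 : ℤ)⟧),
      Triangle.mk a b c ∈ distTriang C ∧ S.In (Set.Ioo φ (φ + 1)) G ∧
      S.In (Set.Ioc (φ - 1) φ) F := by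
  classical
  obtain ⟨l, hl, hI⟩ := hE
  obtain ⟨G, F, a, b, c, hT, hG, hF⟩ := hl.trunc (Set.Ioi φ) (isUpperSet_Ioi φ)
  refine ⟨G, F, a, b, c, hT, ⟨_, hG, ?_⟩, ⟨_, hF, ?_⟩⟩
  · intro ψ hψ
    obtain ⟨h1, h2⟩ := List.mem_filter.1 hψ
    have h3 : φ < ψ := by simpa using h2
    exact ⟨h3, (hI ψ h1).2⟩
  · intro ψ hψ
    obtain ⟨h1, h2⟩ := List.mem_filter.1 hψ
    have h3 : ψ ≤ φ := by simpa using h2
    exact ⟨(hI ψ h1).1, h3⟩

/-- A map from `P(φ)` to `G` which vanishes in `E` vanishes. -/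
lemma KGP_hom (S : Slicing C) {φ : ℝ} {N G E F : C} {a : G ⟶ E} {b : E ⟶ F}
    {c : F ⟶ G⟦(1 : ℤ)⟧} (hT : Triangle.mk a b c ∈ distTriang C) (hN : S.P φ N)
    (hF : S.In (Set.Ioc (φ - 1) φ) F) (h0 : ∀ f : N ⟶ E, f = 0) (g : N ⟶ G) : g = 0 := by
  obtain ⟨a', c', hT'⟩ := exists_invrot hT
  obtain ⟨k, hk⟩ := Triangle.coyoneda_exact₂ _ hT' g (h0 _)
  have hF' : S.In (Set.Iic (φ - 1)) (F⟦(-1 : ℤ)⟧) := by
    refine hF.shift_neg_one.mono ?_
    rintro _ ⟨x, hx, rfl⟩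
    have := hx.2
    show x - 1 ≤ φ - 1
    linarith
  have hN' : S.In ({φ} : Set ℝ) N := Slicing.in_of_P hN rfl
  have hk0 : k = 0 := by
    refine Slicing.In.hom_zero hN' hF' ?_ k
    intro x hx y hy
    rw [Set.mem_singleton_iff.1 hx]
    have : y ≤ φ - 1 := hy
    linarith
  rw [hk, hk0, zero_comp]

/-- The functional `- χ(·, G)`. -/
noncomputable def KGP_w {K : Type u} [AddCommGroup K] (B : K →+ K →+ ℤ) (g : K) : K →+ ℝ :=
  -((Int.castAddHom ℝ).comp (B.flip g))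

lemma KGP_w_apply {K : Type u} [AddCommGroup K] (B : K →+ K →+ ℤ) (g x : K) :
    KGP_w B g x = -((B x g : ℤ) : ℝ) := by
  simp [KGP_w]

/-- KGP. -/
theorem p_KGP : Stmt_PRK.{u} → Stmt_KPR.{u} → Stmt_KUQ C → Stmt_KRD C → Stmt_KFI C →
    Stmt_KGP C := by
  intro hPRK hKPR hKUQ hKRD hKFI h σ
  have := h.finite
  have := h.free
  suffices H : ∀ (n : ℕ) (σ : StabCond C) (φ : ℝ) (N E : C),
      Module.finrank ℤ (σ.im φ).ker < n → σ.sl.P φ N → ¬ IsZero N →
      cls N ∈ radical (eulerForm h.k3) → σ.sl.In (Set.Ioo (φ - 1) (φ + 1)) E →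
      cls E ∈ radical (eulerForm h.k3) → 0 < σ.im φ (cls E) → ∃ f : N ⟶ E, f ≠ 0 by
    intro φ N E h1 h2 h3 h4 h5 h6
    exact H _ σ φ N E (Nat.lt_succ_self _) h1 h2 h3 h4 h5 h6
  clear σ
  intro n
  induction n with
  | zero => intro σ φ N E hn; exact absurd hn (Nat.not_lt_zero _)
  | succ n ih =>
    intro σ φ N E hn hN hN0 hNr hE hEr him
    by_contra hcon
    have h0 : ∀ f : N ⟶ E, f = 0 := by
      intro f
      by_contra hf
      exact hcon ⟨f, hf⟩
    obtain ⟨hz, hre, him0⟩ := σ.polar φ hN hN0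
    rw [sub_self, mul_zero, Real.sin_zero, mul_zero] at him0
    rw [sub_self, mul_zero, Real.cos_zero, mul_one] at hre
    have hre0 : 0 < σ.re φ (cls N) := by rw [hre]; exact hz
    obtain ⟨r, hr, hr0, hr1, hr2⟩ := hKPR (K0 C) (eulerForm h.k3) (σ.im φ) (σ.re φ) (cls N) hNr
      him0 hre0.ne'
    obtain ⟨G, F, a, b, c, hT, hG, hF⟩ := KGP_trunc σ.sl hE
    have hNG : ∀ g : N ⟶ G, g = 0 := fun g => KGP_hom σ.sl hT hN hF h0 g
    by_cases hχ : ∀ x, σ.im φ x = 0 → eulerForm h.k3 x (cls G) = 0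
    · exact hcon (hKFI h σ φ r hr hr2 hr0 hr1 N E G F hN hN0 hNr hEr him a b c hT hG hF hχ)
    · push Not at hχ
      obtain ⟨x, hx, hxG⟩ := hχ
      have hwN : KGP_w (eulerForm h.k3) (cls G) (cls N) = 0 := by
        rw [KGP_w_apply, mem_radical.1 hNr (cls G)]
        simp
      have hwE : KGP_w (eulerForm h.k3) (cls G) (cls E) = 0 := by
        rw [KGP_w_apply, mem_radical.1 hEr (cls G)]
        simp
      obtain ⟨τ, η, hη, hτN, hτE, hτim, hτre, hτ0⟩ := hKRD h σ φ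
        (KGP_w (eulerForm h.k3) (cls G)) N E hN hwN (by
          intro A B a' b' c' hT' hA hB
          have h1 := (hKUQ h σ φ N G hN hG hNG hNr A B a' b' c' hT' hA hB).2
          rw [KGP_w_apply]
          have h2 : ((eulerForm h.k3 (cls B) (cls G) : ℤ) : ℝ) ≤ 0 := by exact_mod_cast h1
          linarith) hE
      have hlt := hPRK (K0 C) (σ.im φ) (τ.im φ) (KGP_w (eulerForm h.k3) (cls G)) hτ0
        ⟨x, hx, by
          rw [KGP_w_apply]
          have : ((eulerForm h.k3 x (cls G) : ℤ) : ℝ) ≠ 0 := by exact_mod_cast hxG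
          exact neg_ne_zero.2 this⟩
      refine hcon (ih τ φ N E (by omega) hτN hN0 hNr hτE hEr ?_)
      rw [hτim, hwE, mul_zero, add_zero]
      exact him

end

end Pool.Align
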