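import Pool.Agent.Work.MP_841263_kk.Interface
import Pool.Agent.Work.MP_841263_pt.B_PLO

/-! # Lemma (K), block KLO (helper77) -/

set_option autoImplicit false

open CategoryTheory CategoryTheory.Limits CategoryTheory.Pretriangulated
open scoped ZeroObject Topology
open Filter

namespace Pool.Align

open Pool.Stab Pool.Tube

universe v u

variable {C : Type u} [Category.{v} C] [Preadditive C] [HasZeroObject C] [HasShift C ℤ]
  [∀ n : ℤ, (shiftFunctor C n).Additive] [Pretriangulated C] [IsTriangulated C] [Linear ℂ C]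
  [∀ n : ℤ, (shiftFunctor C n).Linear ℂ]

theorem p_KLO : Stmt_PGA C → Stmt_KLO C := by
  intro hPGA h σ φ M
  obtain ⟨ε, hε, hε', hP⟩ := hPGA h σ φ (2 * M)
  refine ⟨ε, hε, hε', ?_⟩
  intro X hX hM
  obtain ⟨l, hl, hI⟩ := hX
  have habs : ∀ ψ ∈ l, |ψ - φ| ≤ 2 * ε := by
    intro ψ hψ
    obtain ⟨h1, h2⟩ := hI ψ hψ
    rw [abs_le]
    constructor <;> linarith
  exact Slicing.In.P_of_singleton ⟨l, hl, fun ψ hψ => PLO_list σ hε' hP hl habs hM ψ hψ⟩

end Pool.Align
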