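import Pool.Agent.Work.MP_841263_kk.Interface

open CategoryTheory CategoryTheory.Limits CategoryTheory.Pretriangulated
open scoped ZeroObject Topology
open Filter

namespace Pool.Align

open Pool.Stab Pool.Tube

universe v u

/-- A functional vanishing on a nonzero element of the radical (of rank two) has a gap on the
elements of norm at most two. -/
lemma KLT_gap {K : Type u} [AddCommGroup K] [Module.Finite ℤ K] [Module.Free ℤ K]
    {B : K →+ K →+ ℤ} (hB : IsPSD B) (hR : Module.finrank ℤ (radical B) = 2) (G : K →+ ℝ) {δ : K}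
    (hδ : δ ∈ radical B) (hδ0 : δ ≠ 0) (hG : G δ = 0) :
    ∃ ε : ℝ, 0 < ε ∧ ∀ x, B x x ≤ 2 → 0 < G x → ε ≤ G x := by
  obtain ⟨F, hF⟩ := hB.finite_mod_radical 2
  obtain ⟨η, hη⟩ := exists_step _ hR G hδ hδ0 hG
  set W : Set ℝ := ⋃ f ∈ F, {v : ℝ | v ∈ Set.Ioc (0 : ℝ) 1 ∧ ∃ n : ℤ, v = G f + n * η}
    with hW
  have hWfin : W.Finite := F.finite_toSet.biUnion (fun f _ => finite_Ioc_progression _ _)
  have hmem : ∀ x, B x x ≤ 2 → 0 < G x → G x ≤ 1 → G x ∈ W := by
    intro x hX hpos hle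
    obtain ⟨f, hfF, hf⟩ := hF x hX
    obtain ⟨n, hn⟩ := hη _ hf
    rw [hW, Set.mem_iUnion₂]
    refine ⟨f, hfF, ⟨hpos, hle⟩, n, ?_⟩
    rw [map_sub] at hn
    linarith
  by_cases hne : W.Nonempty
  · obtain ⟨ε, hε, hmin⟩ := Set.exists_min_image W id hWfin hne
    rw [hW, Set.mem_iUnion₂] at hε
    obtain ⟨f, -, ⟨hε1, hε2⟩, -⟩ := hε
    refine ⟨ε, hε1, ?_⟩
    intro x hX hpos
    by_cases hle : G x ≤ 1
    · exact hmin _ (hmem x hX hpos hle)
    · push Not at hle
      exact hε2.trans hle.le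
  · refine ⟨1, one_pos, ?_⟩
    intro x hX hpos
    by_contra hle
    push Not at hle
    exact hne ⟨_, hmem x hX hpos hle.le⟩

/-- A functional vanishing on the radical is bounded on the elements of norm at most two. -/
lemma KLT_bdd {K : Type u} [AddCommGroup K] [Module.Finite ℤ K] [Module.Free ℤ K]
    {B : K →+ K →+ ℤ} (hB : IsPSD B) (w : K →+ ℝ) (hw : ∀ s ∈ radical B, w s = 0) :
    ∃ M : ℝ, 0 < M ∧ ∀ x, B x x ≤ 2 → |w x| ≤ M := by
  obtain ⟨F, hF⟩ := hB.finite_mod_radical 2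
  refine ⟨1 + ∑ f ∈ F, |w f|, ?_, ?_⟩
  · have : 0 ≤ ∑ f ∈ F, |w f| := Finset.sum_nonneg fun f _ => abs_nonneg _
    linarith
  · intro x hx
    obtain ⟨f, hfF, hf⟩ := hF x hx
    have h1 := hw _ hf
    rw [map_sub] at h1
    have h2 : w x = w f := by linarith
    have h3 : |w f| ≤ ∑ f ∈ F, |w f| :=
      Finset.single_le_sum (f := fun f => |w f|) (fun f _ => abs_nonneg _) hfF
    rw [h2]
    linarith

theorem p_KLT : Stmt_KLT.{u} := by
  intro K _ _ _ B im re w r hB hR hr hr0 hrpos hs hw κ hκ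
  have hrne : r ≠ 0 := by
    rintro rfl
    rw [map_zero] at hrpos
    exact lt_irrefl _ hrpos
  obtain ⟨s, hsR, hs0⟩ := hs
  have hsne : s ≠ 0 := by
    rintro rfl
    exact hs0 (map_zero im)
  obtain ⟨g₁, hg₁, hgap₁⟩ := KLT_gap hB hR im hr hrne hr0
  obtain ⟨g₂, hg₂, hgap₂⟩ := KLT_gap hB hR
    (re - (AddMonoidHom.mulLeft (re s / im s)).comp im) hsR hsne (by
      simp only [AddMonoidHom.sub_apply, AddMonoidHom.comp_apply, AddMonoidHom.coe_mulLeft]
      field_simp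
      ring)
  obtain ⟨M, hM, hbd⟩ := KLT_bdd hB w hw
  refine ⟨min (g₁ / (2 * M)) (κ * g₂ / M), by positivity, ?_⟩
  intro η hη hle
  have hle₁ : η * M ≤ g₁ / 2 := by
    have h := (le_div_iff₀ (by positivity : (0 : ℝ) < 2 * M)).1 (hle.trans (min_le_left _ _))
    linarith
  have hle₂ : η * M ≤ κ * g₂ :=
    (le_div_iff₀ hM).1 (hle.trans (min_le_right _ _))
  have hwx : ∀ x, B x x ≤ 2 → η * |w x| ≤ η * M := fun x hx =>
    mul_le_mul_of_nonneg_left (hbd x hx) hη.le
  constructor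
  · intro x hx hpos
    have h1 := hgap₁ x hx hpos
    have h2 := hwx x hx
    have h3 : -(η * |w x|) ≤ η * w x := by
      have := mul_le_mul_of_nonneg_left (neg_abs_le (w x)) hη.le
      linarith
    linarith
  · intro x hx him hpos _
    have h0 : (re - (AddMonoidHom.mulLeft (re s / im s)).comp im) x = re x := by
      simp only [AddMonoidHom.sub_apply, AddMonoidHom.comp_apply, AddMonoidHom.coe_mulLeft, him,
        mul_zero, sub_zero]
    have h1 := hgap₂ x hx (by rw [h0]; exact hpos)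
    rw [h0] at h1
    calc η * |w x| ≤ η * M := hwx x hx
      _ ≤ κ * g₂ := hle₂
      _ ≤ κ * re x := mul_le_mul_of_nonneg_left h1 hκ.le

end Pool.Align
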