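import Pool.Agent.Work.MP_841263_kk.Interface
import Pool.Agent.Work.MP_841263_r3.Block

/-!
KNF (MP_841263_ag, lemma (K)): a stable quotient of a semistable object for nearby stability conditions.
-/

open CategoryTheory CategoryTheory.Limits CategoryTheory.Pretriangulated
open scoped ZeroObject Topology
open Filter

set_option backward.isDefEq.respectTransparency false
set_option backward.defeqAttrib.useBackward true
set_option linter.unusedSectionVars false

namespace Pool.Align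

open Pool.Stab Pool.Tube

universe v u

variable {C : Type u} [Category.{v} C] [Preadditive C] [HasZeroObject C]
    [HasShift C ℤ] [∀ n : ℤ, (shiftFunctor C n).Additive] [Pretriangulated C] [IsTriangulated C]
    [Linear ℂ C] [∀ n : ℤ, (shiftFunctor C n).Linear ℂ]

lemma KNF_near_mono {σ τ : StabCond C} {η η' : ℝ} (h : StabCond.Near η σ τ) (hle : η ≤ η') :
    StabCond.Near η' σ τ := by
  intro φ X hX
  exact (h φ X hX).mono (Set.Icc_subset_Icc (by linarith) (by linarith))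

lemma KNF_re_nonneg (σ : StabCond C) {φ ε : ℝ} (hε : ε ≤ 1 / 16) {X : C}
    (hX : σ.sl.In (Set.Icc (φ - 2 * ε) (φ + 2 * ε)) X) : 0 ≤ σ.re φ (cls X) := by
  obtain ⟨l, hl, hI⟩ := hX
  refine hl.nonneg (σ.re φ) ?_
  intro χ hχ Y hY hY0
  obtain ⟨hp, hre, -⟩ := σ.polar φ hY hY0
  have h1 := hI χ hχ
  rw [hre]
  refine mul_nonneg hp.le (Real.cos_nonneg_of_neg_pi_div_two_le_of_le ?_ ?_)
  · have := Real.pi_pos
    nlinarith [h1.1]
  · have := Real.pi_pos
    nlinarith [h1.2]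

theorem p_KNF (hPLO : Stmt_PLO C) (hKLO : Stmt_KLO C) : Stmt_KNF C := by
  intro h σ φ N hN hN0
  obtain ⟨ε₁, hε₁, hP⟩ := hPLO h σ φ N hN
  obtain ⟨ε₂, hε₂, hε₂', hK⟩ := hKLO h σ φ (σ.re φ (cls N))
  refine ⟨min ε₁ ε₂, lt_min hε₁ hε₂, ?_⟩
  intro τ n1 n2
  obtain ⟨l, hl⟩ := τ.sl.exists_HN N
  cases hl with
  | zero h0 => exact absurd h0 hN0
  | @step N' _ B ψ l hN' hψ hB hB0 f g k hT =>
    have hτN' : τ.sl.In (Set.Ioi ψ) N' := ⟨l, hN', hψ⟩
    have hτB : τ.sl.In (Set.Ioi ψ)ᶜ B := Slicing.in_of_P hB (by simp)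
    obtain ⟨hσN', hσB⟩ := hP τ (KNF_near_mono n1 (min_le_left _ _))
      (KNF_near_mono n2 (min_le_left _ _)) (Set.Ioi ψ) (isUpperSet_Ioi ψ) N' B f g k hT hτN' hτB
    have m1 := KNF_near_mono n1 (min_le_right ε₁ ε₂)
    have m2 := KNF_near_mono n2 (min_le_right ε₁ ε₂)
    have hBI := m2 φ B hσB
    have hψ1 : φ - ε₂ ≤ ψ := (Slicing.hn_single hB hB0).mem_upper (isUpperSet_Ici (φ - ε₂))
      (hBI.mono (fun x hx => hx.1)) ψ (List.mem_singleton.2 rfl)
    have hψ2 : ψ ≤ φ + ε₂ := not_lt.1 ((Slicing.hn_single hB hB0).mem_lower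
      (isUpperSet_Ioi (φ + ε₂)) (hBI.mono (fun x hx => not_lt.2 hx.2)) ψ
      (List.mem_singleton.2 rfl))
    obtain ⟨B', X, b, s, hses, hX⟩ := (Pool.Blk.finCat_P h τ ψ).exists_simple_quot B hB hB0
    have hI : ∀ Y, τ.sl.P ψ Y → σ.sl.In (Set.Icc (φ - 2 * ε₂) (φ + 2 * ε₂)) Y := by
      intro Y hY
      exact (m1 ψ Y hY).mono (Set.Icc_subset_Icc (by linarith) (by linarith))
    have r1 : 0 ≤ σ.re φ (cls B') := KNF_re_nonneg σ hε₂' (hI B' hses.1)
    have r2 : 0 ≤ σ.re φ (cls N') := KNF_re_nonneg σ hε₂' (Slicing.in_of_P hσN'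
      ⟨by linarith, by linarith⟩)
    have e1 : σ.re φ (cls N) = σ.re φ (cls N') + σ.re φ (cls B) := by rw [cls_mk hT, map_add]
    have e2 : σ.re φ (cls B) = σ.re φ (cls B') + σ.re φ (cls X) := by
      rw [hses.cls_eq, map_add]
    have hσX : σ.sl.P φ X := hK X (hI X hX.1) (by linarith)
    refine ⟨ψ, X, g ≫ s, by linarith, by linarith, hX, hσX, ?_⟩
    intro h0
    obtain ⟨q, hq⟩ := Triangle.yoneda_exact₂ _ (rot_mk hT) s h0
    have hq0 : q = 0 := by
      refine Slicing.In.hom_zero (hτN'.shift_one) (Slicing.in_of_P hX.1 (Set.mem_singleton ψ))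
        ?_ q
      rintro _ ⟨x, hx, rfl⟩ y hy
      have e3 : ψ < x := hx
      have e4 : y = ψ := hy
      show y < x + 1
      linarith
    have hs0 : s = 0 := by rw [hq, hq0, comp_zero]
    exact hX.2.1 (isZero_of_SES_right (Pool.Blk.finCat_P h τ ψ).toAbSub hses hs0)

end Pool.Align
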