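import Pool.Agent.Work.MP_841263_kk.Interface

/-!
# Block KPL: a point with semistable shift on a line of positive imaginary part
-/

open CategoryTheory CategoryTheory.Limits CategoryTheory.Pretriangulated
open scoped ZeroObject Topology
open Filter

set_option backward.isDefEq.respectTransparency false
set_option backward.defeqAttrib.useBackward true
set_option linter.unusedSectionVars false

namespace Pool.Align

open Pool.Stab Pool.Tube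

universe v u

variable {C : Type u} [Category.{v} C] [Preadditive C] [HasZeroObject C] [HasShift C ℤ]
  [∀ n : ℤ, (shiftFunctor C n).Additive] [Pretriangulated C] [IsTriangulated C] [Linear ℂ C]
  [∀ n : ℤ, (shiftFunctor C n).Linear ℂ]

/-- `X` and `X[1][-1]`. -/
noncomputable def KPL_iso (X : C) : X ≅ (X⟦(1 : ℤ)⟧)⟦(-1 : ℤ)⟧ :=
  ((shiftFunctorCompIsoId C (1 : ℤ) (-1) (by simp)).app X).symm

lemma KPL_shift_ne {X Y : C} {f : X ⟶ Y} (hf : f ≠ 0) (n : ℤ) : f⟦n⟧' ≠ 0 := by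
  intro h
  apply hf
  apply (shiftFunctor C n).map_injective
  rw [h, Functor.map_zero]

/-- A nonzero `Q ⟶ X[1]` gives a nonzero `Q[-1] ⟶ X`. -/
lemma KPL_down {Q X : C} (h : ∃ f : Q ⟶ X⟦(1 : ℤ)⟧, f ≠ 0) :
    ∃ f : Q⟦(-1 : ℤ)⟧ ⟶ X, f ≠ 0 := by
  obtain ⟨f, hf⟩ := h
  refine ⟨f⟦(-1 : ℤ)⟧' ≫ (KPL_iso X).inv, ?_⟩
  intro h0
  apply KPL_shift_ne hf (-1)
  rw [← cancel_mono (KPL_iso X).inv, h0, zero_comp]

/-- A nonzero `X[1] ⟶ Q` gives a nonzero `X ⟶ Q[-1]`. -/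
lemma KPL_up {Q X : C} (h : ∃ f : X⟦(1 : ℤ)⟧ ⟶ Q, f ≠ 0) :
    ∃ f : X ⟶ Q⟦(-1 : ℤ)⟧, f ≠ 0 := by
  obtain ⟨f, hf⟩ := h
  refine ⟨(KPL_iso X).hom ≫ f⟦(-1 : ℤ)⟧', ?_⟩
  intro h0
  apply KPL_shift_ne hf (-1)
  rw [← cancel_epi (KPL_iso X).hom, h0, comp_zero]

/-- Shifts of stable objects are stable. -/
lemma KPL_stable {σ : StabCond C} {φ : ℝ} {X : C} (h : σ.Stable φ X) :
    σ.Stable (φ + 1) (X⟦(1 : ℤ)⟧) := by
  refine ⟨(σ.sl.shift_mem φ X).1 h.1, fun hz => h.2.1 ((isZero_shift_iff _ _).1 hz), ?_⟩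
  intro Y Z f g w hT hY hZ
  have hT' := Triangle.shift_distinguished _ hT (-1 : ℤ)
  have hT'' := tri_mid_iso hT' (KPL_iso X).symm
  have hP : ∀ W : C, σ.sl.P (φ + 1) W → σ.sl.P φ (W⟦(-1 : ℤ)⟧) := by
    intro W hW
    have h1 := Slicing.P_shift_neg_one _ _ hW
    rwa [add_sub_cancel_right] at h1
  rcases h.2.2 _ _ _ _ _ hT'' (hP Y hY) (hP Z hZ) with h1 | h1
  · exact Or.inl ((isZero_shift_iff _ _).1 h1)
  · exact Or.inr ((isZero_shift_iff _ _).1 h1)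

/-- Every line has a point. -/
lemma KPL_exists (h : EllipticSetting C) {τ : StabCond C} {t : ℝ} {δ : K0 C} {n : ℕ}
    {α : Fin n → K0 C} (hF : Frame h τ t δ α) (j : Fin n) :
    ∃ Q, τ.Stable (t + 1) Q ∧
      ∃ (l : ℤ) (X : C) (g : X ⟶ Q), IsS τ t δ α j l X ∧ g ≠ 0 := by
  obtain ⟨X0, hX0, -, -⟩ := c_EXI C h τ t δ n α hF j 0
  obtain ⟨X1, hX1, -, -⟩ := c_EXI C h τ t δ n α hF j (0 + 1)
  have h2 := (c_TWO C h τ t δ n α hF j 0 X0 X1 hX0 hX1).1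
  obtain ⟨f, hf⟩ : ∃ f : X0 ⟶ X1, f ≠ 0 := by
    by_contra hno
    push Not at hno
    rw [finrank_of_forall_zero hno] at h2
    norm_num at h2
  obtain ⟨Q, p, q, hT⟩ := distinguished_cocone_triangle f
  have hQ := c_PNT C h τ t δ n α hF j 0 X0 X1 hX0 hX1 f Q p q hf hT
  refine ⟨Q, hQ.1, 0 + 1, X1, p, hX1, ?_⟩
  intro hp0
  apply hQ.1.2.1
  exact isZero₃_of_mor₂ hT hp0 (fun r => τ.hom_shift_zero hX0.1.1
    (Slicing.heart_of_P hQ.1.1 (by linarith) le_rfl) r)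

/-- A point `Q` of the line of `Y` has a nonzero morphism to `Y[1]`. -/
lemma KPL_euler (h : EllipticSetting C) {τ : StabCond C} {t : ℝ} {δ : K0 C} {n : ℕ}
    {α : Fin n → K0 C} (hF : Frame h τ t δ α) {j : Fin n} {k : ℤ} {Y Q : C}
    (hY : IsS τ t δ α j k Y) (hQ : τ.Stable (t + 1) Q) (hg : ∃ g : Y ⟶ Q, g ≠ 0) :
    ∃ f : Q ⟶ Y⟦(1 : ℤ)⟧, f ≠ 0 := by
  have hK := h.k3
  have hQh : τ.sl.Heart t Q := Slicing.heart_of_P hQ.1 (by linarith) le_rfl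
  have hcl := (c_PTL C h τ t δ n α hF Q hQ).1
  have hz : eulerChar Q Y = 0 := by
    rw [← eulerForm_cls hK, hcl]
    exact hF.rad _
  have h1 := hQh.eulerChar hK hY.1.1
  rw [hz, finrank_of_forall_zero (hY.1.2.2 Q hQ.1)] at h1
  by_contra hcon
  push Not at hcon
  rw [finrank_of_forall_zero hcon] at h1
  obtain ⟨g, hg⟩ := hg
  apply hg
  refine forall_zero_of_finrank hK ?_ g
  push_cast at h1
  omega

/-- **Block KPL.** -/
theorem p_KPL : Stmt_KSP C → Stmt_KCI C → Stmt_KPL C := by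
  intro hKSP _ h σ φ r τ n α hNT 𝓖 hGP hcl hex hi
  obtain ⟨ψ, X, hψ1, hψ2, hXst, hXG⟩ := hex
  obtain ⟨i₀, hi₀⟩ := hi
  have hF := hNT.frame
  have hK := h.k3
  have hpt : ∀ Q, τ.Stable (φ + 1) Q → ∀ X, 𝓖 X →
      ((∃ f : X ⟶ Q⟦(-1 : ℤ)⟧, f ≠ 0) ∨ ∃ f : Q⟦(-1 : ℤ)⟧ ⟶ X, f ≠ 0) →
      𝓖 (Q⟦(-1 : ℤ)⟧) := by
    intro Q hQ X hX hf
    refine hcl X _ hX ?_ ?_ hf
    · have h1 := Slicing.P_shift_neg_one _ _ (hNT.point Q hQ)
      rwa [add_sub_cancel_right] at h1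
    · rw [finrank_shift_both]
      exact (StabCond.Stable.simple hQ).finrank_end hK
  by_contra hcon
  obtain ⟨I, hI⟩ : ∃ I : Set (Fin n), I = {i | ∃ Q, τ.Stable (φ + 1) Q ∧
      (∃ (l : ℤ) (X : C) (g : X ⟶ Q), IsS τ φ (-r) α i l X ∧ g ≠ 0) ∧ 𝓖 (Q⟦(-1 : ℤ)⟧)} :=
    ⟨_, rfl⟩
  have hIm : ∀ i, i ∈ I ↔ ∃ Q, τ.Stable (φ + 1) Q ∧
      (∃ (l : ℤ) (X : C) (g : X ⟶ Q), IsS τ φ (-r) α i l X ∧ g ≠ 0) ∧ 𝓖 (Q⟦(-1 : ℤ)⟧) := by
    intro i
    rw [hI]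
    exact Iff.rfl
  have hI0 : ∀ i ∈ I, σ.im φ (α i) = 0 := by
    intro i hi
    obtain ⟨Q, h1, h2, h3⟩ := (hIm i).1 hi
    by_contra hne
    exact hcon ⟨i, Q, lt_of_le_of_ne (hNT.nonneg i) (Ne.symm hne), h1, h2, h3⟩
  -- torsion free objects
  have hcase : ∀ G : C, τ.TF φ G → ∃ (j : Fin n) (Q : C), τ.Stable (φ + 1) Q ∧
      (∃ (l : ℤ) (X : C) (g : X ⟶ Q), IsS τ φ (-r) α j l X ∧ g ≠ 0) ∧
      (∃ f : G ⟶ Q, f ≠ 0) ∧ ∃ f : Q ⟶ G⟦(1 : ℤ)⟧, f ≠ 0 := by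
    intro G hG
    obtain ⟨k, c, hc⟩ := c_HCL C h τ φ (-r) n α hF G hG.1
    have hne : τ.im φ (cls G) ≠ 0 := by
      intro h0
      have h1 := hG.2.2 G (τ.P_of_im hG.1 h0) (𝟙 G)
      apply hG.2.1
      rw [IsZero.iff_id_eq_zero]
      exact h1
    obtain ⟨j, hj⟩ : ∃ j, 1 ≤ c j := by
      by_contra hno
      push Not at hno
      apply hne
      have h1 : cls G = k • (-r) := by
        rw [hc]
        have h2 : ∑ i, (c i : ℤ) • α i = 0 := by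
          refine Finset.sum_eq_zero ?_
          intro i _
          have h3 : c i = 0 := by
            have := hno i
            omega
          rw [h3]
          simp
        rw [h2, add_zero]
      rw [h1, map_zsmul, hF.im0, smul_zero]
    obtain ⟨Q, hQ, hl⟩ := KPL_exists h hF j
    obtain ⟨h1, h2⟩ := hKSP h τ φ (-r) n α hF G hG k (fun i => (c i : ℤ)) hc j
      (by exact_mod_cast hj) Q hQ hl
    exact ⟨j, Q, hQ, hl, h1, h2⟩
  -- (a)
  have hIne : ∃ i, i ∈ I := by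
    rcases lt_trichotomy ψ φ with hlt | heq | hgt
    · have hG : τ.TF φ (X⟦(1 : ℤ)⟧) := by
        refine τ.tf_of_in (Slicing.in_of_P ((τ.sl.shift_mem ψ X).1 hXst.1) ⟨?_, ?_⟩)
          (fun hz => hXst.2.1 ((isZero_shift_iff _ _).1 hz))
        · linarith
        · linarith
      obtain ⟨j, Q, hQ, hl, h1, -⟩ := hcase _ hG
      exact ⟨j, (hIm j).2 ⟨Q, hQ, hl, hpt Q hQ X hXG (Or.inl (KPL_up h1))⟩⟩
    · rw [heq] at hXst
      have hQ := KPL_stable hXst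
      obtain ⟨-, i, hi⟩ := c_PTL C h τ φ (-r) n α hF _ hQ
      obtain ⟨X', hX', -, -⟩ := c_EXI C h τ φ (-r) n α hF i 0
      obtain ⟨g, hg⟩ := hi 0 X' hX'
      refine ⟨i, (hIm i).2 ⟨_, hQ, ⟨0, X', g, hX', hg⟩,
        hpt _ hQ X hXG (Or.inl ⟨(KPL_iso X).hom, ?_⟩)⟩⟩
      intro h0
      apply hXst.2.1
      rw [IsZero.iff_id_eq_zero, ← (KPL_iso X).hom_inv_id, h0, zero_comp]
    · have hG : τ.TF φ X :=
        τ.tf_of_in (Slicing.in_of_P hXst.1 ⟨hgt, hψ2⟩) hXst.2.1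
      obtain ⟨j, Q, hQ, hl, -, h2⟩ := hcase _ hG
      exact ⟨j, (hIm j).2 ⟨Q, hQ, hl, hpt Q hQ X hXG (Or.inr (KPL_down h2))⟩⟩
  -- (b)
  have hIcl : ∀ j ∈ I, ∀ i, eulerForm hK (α i) (α j) = -1 → i ∈ I := by
    intro j hj i hij
    obtain ⟨Q0, hQ0, ⟨l, X0, g0, hX0, hg0⟩, hG0⟩ := (hIm j).1 hj
    obtain ⟨k, Y, hY, hYP⟩ := hNT.line j (hI0 j hj)
    have hYsph := (c_SPH C h τ φ (-r) n α hF j k Y hY).1.1
    have hY0 : ∃ g : Y ⟶ Q0, g ≠ 0 :=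
      (c_ONE C h τ φ (-r) n α hF j l X0 Q0 hX0 hQ0 ⟨g0, hg0⟩).2 k Y hY
    have hGY : 𝓖 Y :=
      hcl _ Y hG0 hYP hYsph (Or.inl (KPL_down (KPL_euler h hF hY hQ0 hY0)))
    obtain ⟨A, hA, -, -⟩ := c_EXI C h τ φ (-r) n α hF i 0
    obtain ⟨Q1, hQ1, ⟨gA, hgA⟩, hYQ, -⟩ := c_ADJ C h τ φ (-r) n α hF i j 0 k A Y hij hA hY
    exact (hIm i).2 ⟨Q1, hQ1, ⟨0, A, gA, hA, hgA⟩,
      hpt Q1 hQ1 Y hGY (Or.inr (KPL_down (KPL_euler h hF hY hQ1 hYQ)))⟩
  -- (c)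
  have hL := c_LHY C h τ φ (-r) hF.toTubeHyp
  obtain ⟨P, hP⟩ : ∃ P : AddSubgroup (K0 C), P = AddSubgroup.closure ({-r} ∪ α '' I) :=
    ⟨_, rfl⟩
  obtain ⟨P', hP'⟩ : ∃ P' : AddSubgroup (K0 C), P' = AddSubgroup.closure ({-r} ∪ α '' Iᶜ) :=
    ⟨_, rfl⟩
  have hmem : ∀ i ∈ I, α i ∈ P := by
    intro i hi
    rw [hP]
    exact AddSubgroup.subset_closure (Or.inr ⟨i, hi, rfl⟩)
  have hmem' : ∀ i, i ∉ I → α i ∈ P' := by
    intro i hi
    rw [hP']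
    exact AddSubgroup.subset_closure (Or.inr ⟨i, hi, rfl⟩)
  have hsup : P ⊔ P' = ⊤ := by
    rw [eq_top_iff]
    intro x _
    obtain ⟨k, c, hx⟩ := hF.span x
    rw [hx]
    refine add_mem ?_ (sum_mem ?_)
    · refine zsmul_mem (AddSubgroup.mem_sup_left ?_) k
      rw [hP]
      exact AddSubgroup.subset_closure (Or.inl rfl)
    · intro i _
      refine zsmul_mem ?_ (c i)
      by_cases hi : i ∈ I
      · exact AddSubgroup.mem_sup_left (hmem i hi)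
      · exact AddSubgroup.mem_sup_right (hmem' i hi)
  have horth : ∀ x ∈ P, ∀ y ∈ P', eulerForm hK x y = 0 := by
    intro x hx y hy
    rw [hP] at hx
    rw [hP'] at hy
    induction hx using AddSubgroup.closure_induction with
    | mem x hx =>
      induction hy using AddSubgroup.closure_induction with
      | mem y hy =>
        rcases hx with hx | ⟨i, hi, rfl⟩
        · rw [Set.mem_singleton_iff.1 hx]
          exact hF.rad y
        · rcases hy with hy | ⟨j, hj, rfl⟩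
          · rw [Set.mem_singleton_iff.1 hy, eulerForm_symm hK]
            exact hF.rad _
          · have hij : i ≠ j := by
              rintro rfl
              exact hj hi
            rcases hF.off i j hij with h1 | h1
            · exact h1
            · exfalso
              rw [eulerForm_symm] at h1
              exact hj (hIcl i hi j h1)
      | zero => rw [map_zero]
      | add y y' _ _ h1 h2 => rw [map_add, h1, h2, add_zero]
      | neg y _ h1 => rw [map_neg, h1, neg_zero]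
    | zero => rw [map_zero, AddMonoidHom.zero_apply]
    | add x x' _ _ h1 h2 => rw [map_add, AddMonoidHom.add_apply, h1, h2, add_zero]
    | neg x _ h1 => rw [map_neg, AddMonoidHom.neg_apply, h1, neg_zero]
  have hno : ∀ i, α i ∉ radical (eulerForm hK) := by
    intro i hi
    have h1 := hi (α i)
    rw [hF.norm i] at h1
    norm_num at h1
  rcases hL.irred P P' hsup horth with h1 | h1
  · obtain ⟨i, hi⟩ := hIne
    exact hno i (h1 _ (hmem i hi))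
  · refine hno i₀ (h1 _ (hmem' i₀ ?_))
    intro hi
    have := hI0 i₀ hi
    linarith

end Pool.Align
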