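import Mathlib
import Pool.Agent.Work.MP_841263_kk.Interface

open CategoryTheory CategoryTheory.Limits CategoryTheory.Pretriangulated
open scoped ZeroObject Topology
open Filter

namespace Pool.Align

open Pool.Stab Pool.Tube

universe v u

theorem p_KPR : Stmt_KPR.{u} := by
  intro K _ _ _ B im re r hr him hre
  have hr0 : r ≠ 0 := by
    rintro rfl
    exact hre (map_zero re)
  set b := Module.Free.chooseBasis ℤ K with hb
  obtain ⟨i, hi⟩ : ∃ i, b.repr r i ≠ 0 := by
    by_contra hcon
    push Not at hcon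
    apply hr0
    rw [← b.repr.map_eq_zero_iff]
    ext i
    exact hcon i
  have hbd : ∀ n : ℕ, (∃ x : K, r = n • x) → n ≤ (b.repr r i).natAbs := by
    rintro n ⟨x, hx⟩
    have h1 : b.repr r i = (n : ℤ) * b.repr x i := by
      rw [hx, map_nsmul, Finsupp.smul_apply, nsmul_eq_mul]
    have h2 : (n : ℤ) ∣ b.repr r i := ⟨_, h1⟩
    have h3 := Int.natAbs_dvd_natAbs.2 h2
    rw [Int.natAbs_natCast] at h3
    exact Nat.le_of_dvd (Int.natAbs_pos.2 hi) h3
  have hex : ∃ n : ℕ, (∃ x : K, r = n • x) ∧ ∀ m : ℕ, (∃ x : K, r = m • x) → m ≤ n := by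
    have hP : ∃ n : ℕ, (∃ x : K, r = n • x) ∧ n ≤ (b.repr r i).natAbs :=
      ⟨1, ⟨r, (one_smul ℕ r).symm⟩, hbd 1 ⟨r, (one_smul ℕ r).symm⟩⟩
    classical
    refine ⟨Nat.findGreatest (fun n => ∃ x : K, r = n • x) (b.repr r i).natAbs, ?_, ?_⟩
    · obtain ⟨n, h1, h2⟩ := hP
      exact Nat.findGreatest_spec (P := fun n => ∃ x : K, r = n • x) h2 h1
    · intro m hm
      exact Nat.le_findGreatest (hbd m hm) hm
  obtain ⟨n, ⟨x, hx⟩, hmax⟩ := hex
  have hn : 0 < n := by
    rcases Nat.eq_zero_or_pos n with h | h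
    · exfalso
      rw [h, zero_smul] at hx
      exact hr0 hx
    · exact h
  have hn' : (n : ℤ) ≠ 0 := by exact_mod_cast hn.ne'
  have hx0 : x ≠ 0 := by
    rintro rfl
    rw [smul_zero] at hx
    exact hr0 hx
  have hprim : ∀ (y : K) (m : ℤ), x = m • y → m = 1 ∨ m = -1 := by
    intro y m hm
    have hm0 : m ≠ 0 := by
      rintro rfl
      rw [zero_smul] at hm
      exact hx0 hm
    have h1 : ∃ z : K, r = (n * m.natAbs) • z := by
      rcases Int.natAbs_eq m with h | h
      · refine ⟨y, ?_⟩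
        rw [hx, hm, mul_smul]
        congr 1
        conv_lhs => rw [h]
        rw [natCast_zsmul]
      · refine ⟨-y, ?_⟩
        rw [hx, hm, mul_smul]
        congr 1
        conv_lhs => rw [h]
        rw [neg_smul, natCast_zsmul, smul_neg]
    have h2 := hmax _ h1
    have h3 : m.natAbs ≤ 1 := by
      by_contra hcon
      push Not at hcon
      nlinarith
    have h4 : m.natAbs = 1 := by
      have := Int.natAbs_pos.2 hm0
      omega
    exact Int.natAbs_eq_iff.1 h4 |>.imp (fun h => by simpa using h) (fun h => by simpa using h)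
  have hrad : x ∈ radical B := by
    have h1 : ∀ y, B r y = 0 := hr
    have h2 : ∀ y, B x y = 0 := by
      intro y
      have h3 := h1 y
      rw [hx, map_nsmul, AddMonoidHom.coe_smul, Pi.smul_apply, nsmul_eq_mul] at h3
      exact (mul_eq_zero.1 h3).resolve_left hn'
    exact h2
  have hnR : (n : ℝ) ≠ 0 := by exact_mod_cast hn.ne'
  have himx : im x = 0 := by
    have h1 := him
    rw [hx, map_nsmul, nsmul_eq_mul] at h1
    exact (mul_eq_zero.1 h1).resolve_left hnR
  have hrex : re x ≠ 0 := by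
    intro h
    apply hre
    rw [hx, map_nsmul, h, smul_zero]
  rcases lt_or_gt_of_ne hrex with h | h
  · refine ⟨-x, (radical B).neg_mem hrad, by rw [map_neg, himx, neg_zero], by
      rw [map_neg]; linarith, ?_⟩
    intro y m hm
    have h1 : x = (-m) • y := by rw [neg_smul, ← hm, neg_neg]
    rcases hprim y (-m) h1 with h2 | h2
    · right; omega
    · left; omega
  · exact ⟨x, hrad, himx, h, hprim⟩

end Pool.Align
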