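import Mathlib
import Pool.Agent.Work.MP_841263_kk.Interface

/-!
# KRC: coordinates of radical classes (helper61)
-/

open CategoryTheory CategoryTheory.Limits CategoryTheory.Pretriangulated
open scoped ZeroObject Topology
open Filter

namespace Pool.Align

open Pool.Stab Pool.Tube

universe u

theorem p_KRC : Stmt_LBL.{u} → Stmt_KRC.{u} := by
  intro hLBL K _ _ _ B im δ hL n α hS x hx him k c hxc i
  obtain ⟨m, hm⟩ := hLBL K B im δ hL n α hS
  obtain ⟨a, b, hab⟩ := hm.gen x hx
  have hsum : im (∑ l, (m l : ℤ) • α l) = ∑ l, (m l : ℝ) * im (α l) := by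
    rw [map_sum]
    refine Finset.sum_congr rfl fun l _ => ?_
    rw [map_zsmul, zsmul_eq_mul]
    push_cast
    ring
  have hnn : 0 ≤ im (∑ l, (m l : ℤ) • α l) := by
    rw [hsum]
    exact Finset.sum_nonneg fun l _ => mul_nonneg (Nat.cast_nonneg _) (hS.pos l).le
  have him2 : im x = (b : ℝ) * im (∑ l, (m l : ℤ) • α l) := by
    rw [hab, map_add, map_zsmul, map_zsmul, hL.im0, smul_zero, zero_add, zsmul_eq_mul]
  have hb : 0 < b := by
    by_contra hb
    have hb' : (b : ℝ) ≤ 0 := by exact_mod_cast not_lt.1 hb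
    have := mul_nonpos_of_nonpos_of_nonneg hb' hnn
    rw [← him2] at this
    exact absurd him (not_lt.2 this)
  have h1 : (k - a) • δ + ∑ l, (c l - b * (m l : ℤ)) • α l = 0 := by
    have h2 : ∑ l, (c l - b * (m l : ℤ)) • α l = (∑ l, c l • α l) - b • ∑ l, (m l : ℤ) • α l := by
      rw [Finset.smul_sum, ← Finset.sum_sub_distrib]
      refine Finset.sum_congr rfl fun l _ => ?_
      rw [sub_smul, mul_smul]
    rw [h2, sub_smul]
    have h3 : k • δ + ∑ l, c l • α l = a • δ + b • ∑ l, (m l : ℤ) • α l := hxc.symm.trans hab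
    have h4 : k • δ - a • δ + ((∑ l, c l • α l) - b • ∑ l, (m l : ℤ) • α l) =
        (k • δ + ∑ l, c l • α l) - (a • δ + b • ∑ l, (m l : ℤ) • α l) := by abel
    rw [h4, h3, sub_self]
  have h5 := (hS.indep _ _ h1).2 i
  have h6 : 1 ≤ (m i : ℤ) := by exact_mod_cast hm.one_le i
  nlinarith

end Pool.Align
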