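import Mathlib
import Pool.Agent.Work.MP_841263_kk.Interface

/-!
# Block KRD: perturbation along a functional which keeps the phase of `N`
-/

open CategoryTheory CategoryTheory.Limits CategoryTheory.Pretriangulated
open scoped ZeroObject Topology
open Filter

set_option backward.isDefEq.respectTransparency false
set_option backward.defeqAttrib.useBackward true
set_option linter.unusedSectionVars false

namespace Pool.Align

open Pool.Stab Pool.Tube

universe v u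

lemma KRD_eps (a b : ℝ) : ∀ l : List ℝ, (∀ φ ∈ l, φ ∈ Set.Ioo a b) →
    ∃ η : ℝ, 0 < η ∧ ∀ φ ∈ l, a < φ - η ∧ φ + η < b := by
  intro l
  induction l with
  | nil =>
    intro _
    exact ⟨1, one_pos, by simp⟩
  | cons x l ih =>
    intro hl
    obtain ⟨η, hη, h⟩ := ih (fun φ hφ => hl φ (by simp [hφ]))
    have hx := hl x (by simp)
    have h1 : a < x := hx.1
    have h2 : x < b := hx.2
    refine ⟨min η (min ((x - a) / 2) ((b - x) / 2)), ?_, ?_⟩
    · refine lt_min hη (lt_min ?_ ?_) <;> linarith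
    · intro φ hφ
      have m1 : min η (min ((x - a) / 2) ((b - x) / 2)) ≤ η := min_le_left _ _
      have m2 : min η (min ((x - a) / 2) ((b - x) / 2)) ≤ (x - a) / 2 :=
        (min_le_right _ _).trans (min_le_left _ _)
      have m3 : min η (min ((x - a) / 2) ((b - x) / 2)) ≤ (b - x) / 2 :=
        (min_le_right _ _).trans (min_le_right _ _)
      rcases List.mem_cons.1 hφ with rfl | hφ
      · exact ⟨by linarith, by linarith⟩
      · have h3 := h φ hφ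
        exact ⟨by linarith [h3.1], by linarith [h3.2]⟩

variable {C : Type u} [Category.{v} C] [Preadditive C] [HasZeroObject C] [HasShift C ℤ]
  [∀ n : ℤ, (shiftFunctor C n).Additive] [Pretriangulated C] [IsTriangulated C] [Linear ℂ C]
  [∀ n : ℤ, (shiftFunctor C n).Linear ℂ]

theorem KRD_rot (ψ a : ℝ) : ((a : ℝ) : ℂ) * Complex.I * Complex.exp (Real.pi * ψ * Complex.I) *
    Complex.exp (-(Real.pi * ψ * Complex.I)) = (a : ℂ) * Complex.I := by
  rw [mul_assoc, ← Complex.exp_add, add_neg_cancel, Complex.exp_zero, mul_one]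

theorem KRD_im {σ τ : StabCond C} {ψ : ℝ} {w : K0 C →+ ℝ} {η : ℝ} (h : ChargeMove σ τ ψ w η)
    (x : K0 C) : τ.im ψ x = σ.im ψ x + η * w x := by
  rw [StabCond.im_apply, StabCond.im_apply, h x, add_mul, Complex.add_im, KRD_rot]
  simp

theorem KRD_re {σ τ : StabCond C} {ψ : ℝ} {w : K0 C →+ ℝ} {η : ℝ} (h : ChargeMove σ τ ψ w η)
    (x : K0 C) : τ.re ψ x = σ.re ψ x := by
  rw [StabCond.re_apply, StabCond.re_apply, h x, add_mul, Complex.add_re, KRD_rot]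
  simp

theorem KRD_near {σ τ : StabCond C} {a b : ℝ} (hab : a ≤ b) (h : StabCond.Near a σ τ) :
    StabCond.Near b σ τ := fun φ X hX =>
  (h φ X hX).mono (Set.Icc_subset_Icc (by linarith) (by linarith))

theorem p_KRD : Stmt_PTD C → Stmt_PBU C → Stmt_PNP C → Stmt_PGE.{u} → Stmt_KRD C := by
  intro hPTD hPBU hPNP hPGE hE σ φ w N E hN hwN hquot hEI
  have := hE.finite
  have := hE.free
  have hsub : ∀ (A' A'' : C) (a : A' ⟶ N) (b : N ⟶ A'') (c : A'' ⟶ A'⟦(1 : ℤ)⟧),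
      Triangle.mk a b c ∈ distTriang C → σ.sl.P φ A' → σ.sl.P φ A'' → w (cls A') ≤ 0 := by
    intro A' A'' a b c hT h1 h2
    have h3 := hquot A' A'' a b c hT h1 h2
    have h4 : w (cls N) = w (cls A') + w (cls A'') := by rw [cls_mk hT, map_add]
    linarith
  obtain ⟨ε₁, hε₁, hP1⟩ := hPTD hE σ φ w N hN hsub
  obtain ⟨ε₂, hε₂, hP2⟩ := hPBU hE σ φ w N hN hquot
  obtain ⟨l, hl, hI⟩ := hEI
  obtain ⟨ε₃, hε₃, hlη⟩ := KRD_eps (φ - 1) (φ + 1) l hI
  have hε : 0 < min ε₁ (min ε₂ ε₃) := lt_min hε₁ (lt_min hε₂ hε₃)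
  obtain ⟨η₀, hη₀, hpath⟩ := hPNP hE σ φ w (min ε₁ (min ε₂ ε₃)) hε
  obtain ⟨η, hη, hη', hgen⟩ := hPGE (K0 C) (σ.im φ) w η₀ hη₀
  obtain ⟨τ, hj, hc, hn1, hn2⟩ := hpath η hη.le hη'
  have e1 : min ε₁ (min ε₂ ε₃) ≤ ε₁ := min_le_left _ _
  have e2 : min ε₁ (min ε₂ ε₃) ≤ ε₂ := (min_le_right _ _).trans (min_le_left _ _)
  have e3 : min ε₁ (min ε₂ ε₃) ≤ ε₃ := (min_le_right _ _).trans (min_le_right _ _)
  have g1 := hP1 τ (KRD_near e1 hn1) (KRD_near e1 hn2) η hη (KRD_im hc)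
  have g2 := hP2 τ (KRD_near e2 hn1) (KRD_near e2 hn2) η hη (KRD_im hc)
  refine ⟨τ, η, hη, ?_, ?_, KRD_im hc, KRD_re hc, ?_⟩
  · have g3 : τ.sl.In (Set.Ioi φ)ᶜ N := g1.mono (fun x hx => by
      rw [Set.mem_compl_iff, Set.mem_Ioi, not_lt]; exact hx)
    have g4 := Slicing.In.inter (isUpperSet_Ici φ) (isUpperSet_Ioi φ) g2 g3
    refine Slicing.In.P_of_singleton (g4.mono ?_)
    intro x hx
    exact le_antisymm (not_lt.1 hx.2) hx.1
  · have hXI : σ.sl.In {ψ : ℝ | φ - 1 < ψ - ε₃ ∧ ψ + ε₃ < φ + 1} E := ⟨l, hl, hlη⟩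
    have h1 : τ.sl.In (Set.Ioi (φ - 1)) E :=
      (KRD_near e3 hn2).up (isUpperSet_Ioi (φ - 1)) (fun ψ hψ => hψ.1) hXI
    have h2 : τ.sl.In (Set.Ici (φ + 1))ᶜ E :=
      (KRD_near e3 hn2).low (isUpperSet_Ici (φ + 1)) (fun ψ hψ => not_le.2 hψ.2) hXI
    have h3 := Slicing.In.inter (isUpperSet_Ioi (φ - 1)) (isUpperSet_Ici (φ + 1)) h1 h2
    exact h3.mono (fun ψ hψ => ⟨hψ.1, not_le.1 hψ.2⟩)
  · intro x
    rw [KRD_im hc]
    refine ⟨hgen x, fun h => ?_⟩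
    rw [h.1, h.2, mul_zero, add_zero]

end Pool.Align
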