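import Pool.Agent.Work.MP_841263_kk.Interface
import Pool.Agent.Work.MP_841263_r3.Block

/-!
# Block KSE: the Serre subcategory generated by the factors of a semistable object of radical class
-/

open CategoryTheory CategoryTheory.Limits CategoryTheory.Pretriangulated
open scoped ZeroObject Topology
open Filter

set_option backward.isDefEq.respectTransparency false
set_option backward.defeqAttrib.useBackward true
set_option linter.unusedSectionVars false

namespace Pool.Align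

open Pool.Stab Pool.Tube Pool.Blk

universe v u

variable {C : Type u} [Category.{v} C] [Preadditive C] [HasZeroObject C] [HasShift C ℤ]
  [∀ n : ℤ, (shiftFunctor C n).Additive] [Pretriangulated C] [IsTriangulated C] [Linear ℂ C]
  [∀ n : ℤ, (shiftFunctor C n).Linear ℂ]

/-- Without morphisms and with Euler product zero, an object of phase `φ` is orthogonal to an
object with phases in `(φ, φ + 1)`. -/
lemma KSE_orth (h : EllipticSetting C) {σ : StabCond C} {φ : ℝ} {N F : C} (hN : σ.sl.P φ N)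
    (hF : σ.sl.In (Set.Ioo φ (φ + 1)) F) (h0 : ∀ f : N ⟶ F, f = 0)
    (hx : eulerForm h.k3 (cls N) (cls F) = 0) : Orth N F := by
  have hN' : σ.sl.In {φ} N := Slicing.in_of_P hN rfl
  have hz : ∀ n : ℤ, n ≠ 1 → Module.finrank ℂ (N ⟶ F⟦n⟧) = 0 := by
    intro n hn
    rcases lt_trichotomy n 0 with h1 | h1 | h1
    · refine finrank_of_forall_zero (fun f => hN'.hom_zero (hF.shift n) ?_ f)
      rintro x hx _ ⟨y, hy, rfl⟩
      have hx' : x = φ := hx
      have h2 : (n : ℝ) ≤ -1 := by exact_mod_cast (by omega : n ≤ -1)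
      have h3 := hy.2
      show y + (n : ℝ) < x
      rw [hx']
      linarith
    · subst h1
      rw [finrank_shift_zero]
      exact finrank_of_forall_zero h0
    · have h2 : (2 : ℝ) ≤ (n : ℝ) := by exact_mod_cast (by omega : (2 : ℤ) ≤ n)
      rw [finrank_duality h.k3]
      refine finrank_of_forall_zero (fun f => hF.hom_zero (hN'.shift (2 - n)) ?_ f)
      rintro x hx _ ⟨y, hy, rfl⟩
      have hy' : y = φ := hy
      have h3 := hx.1
      show y + ((2 - n : ℤ) : ℝ) < x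
      rw [hy']
      push_cast
      linarith
  have h1 : eulerChar N F = 0 := by
    rw [← eulerForm_cls h.k3]
    exact hx
  have h2 : Module.finrank ℂ (N ⟶ F⟦(1 : ℤ)⟧) = 0 := by
    rw [Pool.Stab.eulerChar, finsum_eq_single _ (1 : ℤ)] at h1
    · rw [Int.negOnePow_one] at h1
      push_cast at h1
      omega
    · intro n hn
      rw [hz n hn]
      simp
  intro n f
  by_cases hn : n = 1
  · subst hn
    exact forall_zero_of_finrank h.k3 h2 f
  · exact forall_zero_of_finrank h.k3 (hz n hn) f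

/-- `im φ` vanishes on the classes of the objects of phase `φ`. -/
lemma KSE_im {σ : StabCond C} {φ : ℝ} {X : C} (hX : σ.sl.P φ X) : σ.im φ (cls X) = 0 := by
  by_cases h0 : IsZero X
  · rw [cls_of_isZero h0, map_zero]
  · rw [(σ.polar φ hX h0).2.2]
    simp

/-- Orthogonality of a generated object. -/
lemma KSE_gen {G : C → Prop} {X F : C} (hX : Gen G X) (h : ∀ T, G T → Orth T F) : Orth X F := by
  intro n f
  refine Gen.hom_zero (G := G) (G' := fun Z => Z = F⟦n⟧) ?_ hX (Gen.of rfl) f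
  rintro T Z hT rfl g
  exact h T hT n g

/-- The stable factors of a semistable object. -/
lemma KSE_factors (h : EllipticSetting C) (σ : StabCond C) (φ : ℝ) {N : C}
    (hN : Gen (σ.Stable φ) N) : ∃ L : Multiset C, (∀ S ∈ L, σ.Stable φ S) ∧
      (L.map cls).sum = cls N ∧ Gen (fun Y => Y ∈ L) N ∧
      ∀ F, σ.sl.In (Set.Ioo φ (φ + 1)) F →
        (∀ x, σ.im φ x = 0 → eulerForm h.k3 x (cls F) = 0) →
        (∀ f : N ⟶ F, f = 0) → ∀ T ∈ L, Orth T F := by
  induction hN with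
  | zero h0 =>
    exact ⟨0, by simp, by simp [cls_of_isZero h0], Gen.zero h0, by simp⟩
  | @of X hX =>
    refine ⟨{X}, by simpa using hX, by simp, Gen.of (by simp), ?_⟩
    intro F hF hx h0 T hT
    have hTX : T = X := by simpa using hT
    subst hTX
    exact KSE_orth h hX.1 hF h0 (hx _ (KSE_im hX.1))
  | @ext X Y Z f g w hT hX hZ h1 h2 =>
    obtain ⟨L1, a1, b1, c1, d1⟩ := h1
    obtain ⟨L2, a2, b2, c2, d2⟩ := h2
    refine ⟨L1 + L2, ?_, by rw [Multiset.map_add, Multiset.sum_add, b1, b2, cls_mk hT],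
      Gen.ext hT (c1.mono (fun H hH => by simp [hH])) (c2.mono (fun H hH => by simp [hH])), ?_⟩
    · intro H hH
      rcases Multiset.mem_add.1 hH with h3 | h3
      · exact a1 H h3
      · exact a2 H h3
    · intro F hF hx h0
      have hXP : σ.sl.P φ X := (finCat_P h σ φ).toAbSub.gen_mem (fun S hS => hS) hX
      have hX1 : σ.sl.In (Set.Ici (φ + 1)) (X⟦(1 : ℤ)⟧) := by
        refine ((Slicing.in_of_P (I := {φ}) hXP rfl).shift_one).mono ?_
        rintro _ ⟨x, hx, rfl⟩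
        have hx' : x = φ := hx
        show φ + 1 ≤ x + 1
        rw [hx']
      have hZ0 : ∀ g' : Z ⟶ F, g' = 0 := by
        intro g'
        obtain ⟨r, hr⟩ := Triangle.yoneda_exact₂ _ (rot_mk hT) g' (h0 (g ≫ g'))
        have hr0 : r = 0 := hX1.hom_zero hF (fun x hx y hy => lt_of_lt_of_le hy.2 hx) r
        rw [hr, hr0, comp_zero]
      have hZo : ∀ T ∈ L2, Orth T F := d2 F hF hx hZ0
      have hZF : Orth Z F := KSE_gen c2 hZo
      have hX0 : ∀ f' : X ⟶ F, f' = 0 := by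
        intro f'
        have h4 : w ≫ f'⟦(1 : ℤ)⟧' = 0 := hZF 1 _
        have hrot := rot_mk (rot_mk hT)
        obtain ⟨r, hr⟩ := Triangle.yoneda_exact₂ _ hrot (f'⟦(1 : ℤ)⟧') h4
        obtain ⟨r', hr'⟩ : ∃ r' : Y ⟶ F, r'⟦(1 : ℤ)⟧' = r :=
          ⟨(shiftFunctor C (1 : ℤ)).preimage r, Functor.map_preimage _ _⟩
        apply (shiftFunctor C (1 : ℤ)).map_injective
        rw [hr, ← hr', h0 r']
        simp
      intro T hT'
      rcases Multiset.mem_add.1 hT' with h3 | h3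
      · exact d1 F hF hx hX0 T h3
      · exact hZo T h3

/-- Every semistable object is the direct sum of its part in `R` and of the rest, if the stable
objects of the class `R` are orthogonal to the other ones. -/
lemma KSE_split (h : EllipticSetting C) {σ : StabCond C} {φ : ℝ} {R : C → Prop}
    (horth : ∀ S T, R S → σ.Stable φ T → ¬ R T → Orth S T ∧ Orth T S) {X : C}
    (hX : σ.sl.P φ X) : ∃ X₁ X₂ : C,
      Gen (fun Z => ∃ (S : C) (m : ℤ), R S ∧ Nonempty (Z ≅ S⟦m⟧)) X₁ ∧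
      Gen (fun Z => ∃ (S : C) (m : ℤ), (σ.Stable φ S ∧ ¬ R S) ∧ Nonempty (Z ≅ S⟦m⟧)) X₂ ∧
      (∀ f : X₁ ⟶ X₂, f = 0) ∧ (∀ f : X₂ ⟶ X₁, f = 0) ∧ Nonempty (X ≅ X₁ ⊞ X₂) := by
  have hfc := finCat_P h σ φ
  have hgen := hfc.gen_simple X hX
  set G1 : C → Prop := fun Z => ∃ (S : C) (m : ℤ), R S ∧ Nonempty (Z ≅ S⟦m⟧) with hG1
  set G2 : C → Prop := fun Z => ∃ (S : C) (m : ℤ), (σ.Stable φ S ∧ ¬ R S) ∧
    Nonempty (Z ≅ S⟦m⟧) with hG2
  have hsh : ∀ (Q : C → Prop) (Z : C) (n : ℤ), (∃ (S : C) (m : ℤ), Q S ∧ Nonempty (Z ≅ S⟦m⟧)) →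
      ∃ (S : C) (m : ℤ), Q S ∧ Nonempty (Z⟦n⟧ ≅ S⟦m⟧) := by
    rintro Q Z n ⟨S, m, hS, ⟨e⟩⟩
    exact ⟨S, m + n, hS, ⟨(shiftFunctor C n).mapIso e ≪≫
      ((shiftFunctorAdd C m n).app S).symm⟩⟩
  have h12 : ∀ X Y, G1 X → G2 Y → ∀ f : X ⟶ Y, f = 0 := by
    rintro X Y ⟨S, m, hS, ⟨e⟩⟩ ⟨T, n, hT, ⟨e'⟩⟩ f
    have := orth_shift (horth S T hS hT.1 hT.2).1 m n (e.inv ≫ f ≫ e'.hom)
    rw [← cancel_epi e.inv, ← cancel_mono e'.hom, Category.assoc, this]
    simp
  have h21 : ∀ X Y, G1 X → G2 Y → ∀ f : Y ⟶ X, f = 0 := by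
    rintro X Y ⟨S, m, hS, ⟨e⟩⟩ ⟨T, n, hT, ⟨e'⟩⟩ f
    have := orth_shift (horth S T hS hT.1 hT.2).2 n m (e'.inv ≫ f ≫ e.hom)
    rw [← cancel_epi e'.inv, ← cancel_mono e.hom, Category.assoc, this]
    simp
  obtain ⟨X₁, X₂, hX₁, hX₂, he⟩ := exists_biprod_of_gen (G := G1) (G' := G2) (hsh _) (hsh _)
    h12 h21 (E := X) (hgen.mono (fun S hS => by
      by_cases hGS : R S
      · exact Or.inl ⟨S, 0, hGS, ⟨((shiftFunctorZero C ℤ).app S).symm⟩⟩
      · exact Or.inr ⟨S, 0, ⟨hS, hGS⟩, ⟨((shiftFunctorZero C ℤ).app S).symm⟩⟩))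
  exact ⟨X₁, X₂, hX₁, hX₂, fun f => Gen.hom_zero h12 hX₁ hX₂ f,
    fun f => Gen.hom_zero (fun Y X hY hX f => h21 X Y hX hY f) hX₂ hX₁ f, he⟩

/-- **Block KSE.** -/
theorem p_KSE (_ : Stmt_KFC C) : Stmt_KSE C := by
  intro h σ φ N hN hrad
  have hfc := finCat_P h σ φ
  obtain ⟨L, hL, hsum, hgenL, hF⟩ := KSE_factors h σ φ (hfc.gen_simple N hN)
  set R : C → Prop := fun T => ∃ S ∈ L, Nonempty (S ≅ T) with hR
  have hRs : ∀ T, R T → σ.Stable φ T := by
    rintro T ⟨S, hS, ⟨e⟩⟩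
    exact stable_iso h (hL S hS) e
  have horthL : ∀ S ∈ L, ∀ T, σ.Stable φ T → ¬ R T → Orth S T ∧ Orth T S := by
    intro S hS T hT hnT
    have hne : ∀ S' ∈ L, ¬ Nonempty (S' ≅ T) := fun S' hS' he => hnT ⟨S', hS', he⟩
    have hle : ∀ S' ∈ L, eulerForm h.k3 (cls S') (cls T) =
        -(Module.finrank ℂ (S' ⟶ T⟦(1 : ℤ)⟧) : ℤ) := fun S' hS' =>
      (hfc.toAbSub.simple_form_le h.k3 (hL S' hS') hT (hne S' hS')).1
    have hs0 : ((L.map cls).map (fun x => eulerForm h.k3 x (cls T))).sum = 0 := by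
      rw [← form_sum_left, hsum]
      exact hrad _
    have hz : eulerForm h.k3 (cls S) (cls T) = 0 := by
      obtain ⟨L', rfl⟩ := Multiset.exists_cons_of_mem hS
      rw [Multiset.map_cons, Multiset.map_cons, Multiset.sum_cons] at hs0
      have h1 : ∀ M : Multiset C, (∀ S' ∈ M, S' ∈ S ::ₘ L') →
          ((M.map cls).map (fun x => eulerForm h.k3 x (cls T))).sum ≤ 0 := by
        intro M
        induction M using Multiset.induction_on with
        | empty => intro _; simp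
        | cons a M ih =>
          intro hM
          rw [Multiset.map_cons, Multiset.map_cons, Multiset.sum_cons]
          have h3 := ih (fun S' hS' => hM S' (Multiset.mem_cons_of_mem hS'))
          have h4 := hle a (hM a (Multiset.mem_cons_self a M))
          have : (0 : ℤ) ≤ (Module.finrank ℂ (a ⟶ T⟦(1 : ℤ)⟧) : ℤ) := by positivity
          linarith
      have h5 := h1 L' (fun S' hS' => Multiset.mem_cons_of_mem hS')
      have h2 := hle S hS
      have : (0 : ℤ) ≤ (Module.finrank ℂ (S ⟶ T⟦(1 : ℤ)⟧) : ℤ) := by positivity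
      linarith
    refine orth_of_stable h (hL S hS) hT (hne S hS) ?_
    have h3 := hle S hS
    rw [hz] at h3
    exact forall_zero_of_finrank h.k3 (by omega)
  have horth : ∀ S T, R S → σ.Stable φ T → ¬ R T → Orth S T ∧ Orth T S := by
    rintro S T ⟨S', hS', ⟨e⟩⟩ hT hnT
    obtain ⟨h1, h2⟩ := horthL S' hS' T hT hnT
    refine ⟨?_, h2.iso e⟩
    intro n f
    rw [← cancel_epi e.hom, h1 n (e.hom ≫ f), comp_zero]
  refine ⟨Gen R, hgenL.mono (fun S hS => ⟨S, hS, ⟨Iso.refl _⟩⟩), ?_, ?_, ?_⟩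
  · intro X hX
    exact hfc.toAbSub.gen_mem (fun S hS => hRs S hS) hX
  · intro X Y hX hY hend hex
    obtain ⟨Y₁, Y₂, hY₁, hY₂, -, -, ⟨e⟩⟩ := KSE_split h horth hY
    rcases isZero_of_iso_biprod hend e with h0 | h0
    · -- `Y` is orthogonal to `Gen R`
      exfalso
      have hYg : Gen (fun Z => ∃ (S : C) (m : ℤ), (σ.Stable φ S ∧ ¬ R S) ∧
          Nonempty (Z ≅ S⟦m⟧)) Y := by
        refine Gen.iso (Gen.ext (binaryBiproductTriangle_distinguished Y₁ Y₂) (Gen.zero h0) hY₂)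
          e.symm
      rcases hex with ⟨f, hf⟩ | ⟨f, hf⟩
      · apply hf
        refine Gen.hom_zero ?_ hX hYg f
        rintro S Z hS ⟨T, m, hT, ⟨e'⟩⟩ f'
        have := (horth S T hS hT.1 hT.2).1 m (f' ≫ e'.hom)
        rw [← cancel_mono e'.hom, this, zero_comp]
      · apply hf
        refine Gen.hom_zero ?_ hYg hX f
        rintro Z S ⟨T, m, hT, ⟨e'⟩⟩ hS f'
        have := orth_shift (horth S T hS hT.1 hT.2).2 m 0
          (e'.inv ≫ f' ≫ ((shiftFunctorZero C ℤ).app S).inv)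
        rw [← cancel_epi e'.inv, ← cancel_mono ((shiftFunctorZero C ℤ).app S).inv,
          Category.assoc, this]
        simp
    · -- `Y` is isomorphic to `Y₁`
      have hYg : Gen (fun Z => ∃ (S : C) (m : ℤ), R S ∧ Nonempty (Z ≅ S⟦m⟧)) Y := by
        refine Gen.iso (Gen.ext (binaryBiproductTriangle_distinguished Y₁ Y₂) hY₁ (Gen.zero h0))
          e.symm
      refine (gen_of_hom_zero h (σ := σ) (φ := φ) (R := fun T => σ.Stable φ T ∧ ¬ R T)
        (fun S hS => hS.1) (fun S T hS hT hnT => ?_) hY (fun S hS f => ?_)).mono ?_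
      · have hGT : R T := by
          by_contra hc
          exact hnT ⟨hT, hc⟩
        exact (horth T S hGT hS.1 hS.2).symm
      · refine Gen.hom_zero (G' := fun Z => Z = S) ?_ hYg (Gen.of rfl) f
        rintro Z S' ⟨T, m, hT, ⟨e'⟩⟩ rfl f'
        have := orth_shift (horth T S' hT hS.1 hS.2).1 m 0
          (e'.inv ≫ f' ≫ ((shiftFunctorZero C ℤ).app S').inv)
        rw [← cancel_epi e'.inv, ← cancel_mono ((shiftFunctorZero C ℤ).app S').inv,
          Category.assoc, this]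
        simp
      · rintro T ⟨hT, hnT⟩
        by_contra hc
        exact hnT ⟨hT, hc⟩
  · intro F hFI h0 hx X hX
    refine KSE_gen hX ?_
    rintro T ⟨S, hS, ⟨e⟩⟩ n f
    rw [← cancel_epi e.hom, hF F hFI hx h0 S hS n (e.hom ≫ f), comp_zero]

end Pool.Align
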