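import Pool.Agent.Work.MP_841263_kk.Interface
import Pool.Agent.Work.MP_841263_al.B_MON

/-! # Lemma (K), block KSP (helper35): the points in the support of a torsion free object -/

set_option autoImplicit false

open CategoryTheory CategoryTheory.Limits CategoryTheory.Pretriangulated
open scoped ZeroObject Topology
open Filter

namespace Pool.Align

open Pool.Stab Pool.Tube

universe v u

section

variable {C : Type u} [Category.{v} C] [Preadditive C] [HasZeroObject C] [HasShift C ℤ]
  [∀ n : ℤ, (shiftFunctor C n).Additive] [Pretriangulated C] [IsTriangulated C] [Linear ℂ C]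
  [∀ n : ℤ, (shiftFunctor C n).Linear ℂ]

/-- `hom(G, Q) = hom(Q, G[1])` for a torsion free object `G` and a point `Q`. -/
theorem KSP_eq {h : EllipticSetting C} {σ : StabCond C} {t : ℝ} {δ : K0 C}
    (hF : TubeHyp h σ t δ) {G Q : C} (hG : σ.TF t G) (hQ : σ.sl.P (t + 1) Q) :
    Module.finrank ℂ (G ⟶ Q) = Module.finrank ℂ (Q ⟶ G⟦(1 : ℤ)⟧) := by
  have hfin := h.k3.homFinite
  obtain ⟨m, hm, -⟩ := c_PTP C h σ t δ hF Q hQ
  have hQh : σ.sl.Heart t Q := Slicing.heart_of_P hQ (by linarith) le_rfl
  have h1 := Slicing.Heart.eulerChar h.k3 hQh hG.1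
  have h2 : eulerForm h.k3 (cls Q) (cls G) = 0 := by
    rw [hm]
    exact (radical (eulerForm h.k3)).smul_mem (m : ℤ) hF.rad (cls G)
  rw [← eulerForm_cls h.k3, h2, finrank_of_forall_zero (fun f => hG.2.2 Q hQ f)] at h1
  push_cast at h1
  omega

theorem KSP_iff {h : EllipticSetting C} {σ : StabCond C} {t : ℝ} {δ : K0 C}
    (hF : TubeHyp h σ t δ) {G Q : C} (hG : σ.TF t G) (hQ : σ.sl.P (t + 1) Q) :
    (∃ f : G ⟶ Q, f ≠ 0) ↔ ∃ f : Q ⟶ G⟦(1 : ℤ)⟧, f ≠ 0 := by
  have h1 := KSP_eq hF hG hQ
  constructor
  · rintro ⟨f, hf⟩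
    by_contra hc
    push Not at hc
    rw [finrank_of_forall_zero hc] at h1
    exact hf (forall_zero_of_finrank h.k3 h1 f)
  · rintro ⟨f, hf⟩
    by_contra hc
    push Not at hc
    rw [finrank_of_forall_zero hc] at h1
    exact hf (forall_zero_of_finrank h.k3 h1.symm f)

theorem p_KSP : Stmt_KSP C := by
  intro h σ t δ n α hF G0 hG0 k0 c0 hcls0 i hci0 Q hQs hXQ
  have hfin := h.k3.homFinite
  have := h.finite
  have := h.free
  have hB : IsPSD (eulerForm h.k3) := isPSD_of h.k3 h.psd
  obtain ⟨ε, hε, hgap⟩ := σ.exists_gap h.k3 hB h.rank hF.rad hF.ne hF.im0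
  have hQP : σ.sl.P (t + 1) Q := hQs.1
  have hQh : σ.sl.Heart t Q := Slicing.heart_of_P hQP (by linarith) le_rfl
  obtain ⟨l0, X0, g0, hX0, hg0⟩ := hXQ
  -- every object of the line `i` has a nonzero map to `Q`
  have hline : ∀ (l : ℤ) (Y : C), IsS σ t δ α i l Y → ∃ g : Y ⟶ Q, g ≠ 0 :=
    (c_ONE C h σ t δ n α hF i l0 X0 Q hX0 hQs ⟨g0, hg0⟩).2
  have hδ : ∀ (x y : K0 C) (k : ℤ), eulerForm h.k3 (x + k • δ) y = eulerForm h.k3 x y := by
    intro x y k
    have h1 : eulerForm h.k3 (k • δ) y = 0 := (radical (eulerForm h.k3)).smul_mem k hF.rad y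
    rw [map_add, AddMonoidHom.add_apply, h1, add_zero]
  have hsum : ∀ (c : Fin n → ℤ) (j : Fin n),
      ∑ x, (c x - if x = j then 1 else 0) • α x = ∑ x, c x • α x - α j := by
    intro c j
    simp only [sub_smul, Finset.sum_sub_distrib]
    congr 1
    simp
  -- a torsion free object which has been cut off
  have hne : ∀ (Y : C) (k : ℤ) (c : Fin n → ℤ), cls Y = k • δ + ∑ x, c x • α x → 1 ≤ c i →
      ¬ IsZero Y := by
    intro Y k c hc h1 hz
    rw [cls_of_isZero hz] at hc
    have h2 := (hF.indep k c hc.symm).2 i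
    omega
  have hmain : ∀ N : ℕ, ∀ G, σ.TF t G → σ.im t (cls G) < N * ε → ∀ (k : ℤ) (c : Fin n → ℤ),
      cls G = k • δ + ∑ x, c x • α x → 1 ≤ c i → ∃ f : G ⟶ Q, f ≠ 0 := by
    intro N
    induction N with
    | zero =>
      intro G hG h1
      exfalso
      have h2 := σ.im_nonneg hG.1
      simp at h1
      linarith
    | succ N ih =>
      intro G hG hGN k c hcls hci
      have hGh := hG.1
      by_cases c1 : ∃ (j : Fin n) (l : ℤ) (X : C) (f : G ⟶ X), IsS σ t δ α j l X ∧ f ≠ 0
      · obtain ⟨j, l, X, f, hX, hf⟩ := c1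
        obtain ⟨K, I, Q', a, p, d, jj, q, e, hT1, hT2, hK, hI, hQ', hpj⟩ :=
          Slicing.exists_KIQ hGh hX.1.1 f
        have hI0 : ¬ IsZero I := by
          intro h0
          apply hf
          rw [← hpj, h0.eq_of_tgt p 0, zero_comp]
        have hQ'P : σ.sl.P (t + 1) Q' := by
          rcases (c_ATM C h σ t δ n α hF j l X hX).2 I Q' jj q e hT2 hI hQ' with h1 | h1
          · exact absurd h1 hI0
          · exact h1
        obtain ⟨m, hm, -⟩ := c_PTP C h σ t δ hF.toTubeHyp Q' hQ'P
        have hcI : cls I = α j + (l - m) • δ := by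
          have h1 := cls_mk hT2
          rw [hX.2, hm] at h1
          rw [sub_smul, ← add_sub_assoc, h1]
          abel
        have hIS : IsS σ t δ α j (l - m) I := ⟨StabCond.TF.sub hT2 hX.1 hI hQ' hI0, hcI⟩
        have hcK := cls_mk hT1
        rcases eq_or_ne j i with rfl | hji
        · obtain ⟨g, hg⟩ := hline _ I hIS
          refine ⟨p ≫ g, fun h0 => hg ?_⟩
          obtain ⟨r, hr⟩ : ∃ r : K⟦(1 : ℤ)⟧ ⟶ Q, g = d ≫ r := Triangle.yoneda_exact₃ _ hT1 g h0
          rw [hr, σ.hom_shift_zero hK hQh r, comp_zero]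
        · -- the kernel
          have hcK' : cls K = (k - (l - m)) • δ + ∑ x, (c x - if x = j then 1 else 0) • α x := by
            rw [hsum, sub_smul]
            have h1 : cls K = cls G - cls I := by rw [hcK]; abel
            rw [h1, hcls, hcI]
            abel
          have hcKi : 1 ≤ c i - if i = j then 1 else 0 := by
            rw [if_neg (Ne.symm hji)]
            omega
          have hK0 := hne K _ _ hcK' hcKi
          have hKTF : σ.TF t K := StabCond.TF.sub hT1 hG hK hI hK0
          have hIim := σ.gap_tf hε hgap hIS.1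
          have hKim : σ.im t (cls K) < N * ε := by
            rw [hcK, map_add] at hGN
            push_cast at hGN
            linarith
          obtain ⟨u, hu⟩ := (KSP_iff hF.toTubeHyp hKTF hQP).1 (ih K hKTF hKim _ _ hcK' hcKi)
          refine (KSP_iff hF.toTubeHyp hG hQP).2 ⟨u ≫ a⟦(1 : ℤ)⟧', fun h0 => hu ?_⟩
          obtain ⟨v, hv⟩ : ∃ v : Q ⟶ I, u = v ≫ d := Triangle.coyoneda_exact₁ _ hT1 u h0
          rw [hv, hIS.1.2.2 Q hQP v, zero_comp]
      · by_cases c2 : ∃ (j : Fin n) (l : ℤ) (X : C) (f : X ⟶ G), IsS σ t δ α j l X ∧ f ≠ 0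
        · obtain ⟨j, l, X, f, hX, hf⟩ := c2
          obtain ⟨R0, g, w, hT3, hR0⟩ := p_MON h σ t δ n α hF j l X G hX hG f hf
          obtain ⟨T, R, a1, b1, c1', hTR, hTP, hR⟩ := hR0.exists_torsion
          have hRH : σ.sl.Heart t R := hR.mono (fun φ hφ => ⟨hφ.1, hφ.2.le⟩)
          obtain ⟨X', i3, d3, hX'⟩ := distinguished_cocone_triangle₁ (g ≫ b1)
          obtain ⟨m1, n1, r1, hm1, hm1'⟩ := exists_octa_cocone hT3 hTR hX'
          obtain ⟨m, hm, -⟩ := c_PTP C h σ t δ hF.toTubeHyp T hTP
          have hTH : σ.sl.Heart t T := Slicing.heart_of_P hTP (by linarith) le_rfl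
          have hX'H : σ.sl.Heart t X' := Slicing.Heart.ext hm1 hX.1.1 hTH
          have hX'0 : ¬ IsZero X' := by
            intro hz
            apply hf
            rw [← hm1', hz.eq_of_tgt m1 0, zero_comp]
          have hX'TF : σ.TF t X' := StabCond.TF.sub hX' hG hX'H hRH hX'0
          have hX'S : IsS σ t δ α j (l + m) X' := by
            refine ⟨hX'TF, ?_⟩
            rw [cls_mk hm1, hX.2, hm, add_smul]
            abel
          have hcR := cls_mk hX'
          rcases eq_or_ne j i with rfl | hji
          · obtain ⟨u, hu⟩ := (KSP_iff hF.toTubeHyp hX'TF hQP).1 (hline _ X' hX'S)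
            refine (KSP_iff hF.toTubeHyp hG hQP).2 ⟨u ≫ i3⟦(1 : ℤ)⟧', fun h0 => hu ?_⟩
            obtain ⟨v, hv⟩ : ∃ v : Q ⟶ R, u = v ≫ d3 := Triangle.coyoneda_exact₁ _ hX' u h0
            have hv0 : v = 0 := by
              refine Slicing.In.hom_zero (Slicing.in_of_P hQP (Set.mem_singleton _)) hR ?_ v
              rintro φ hφ ψ hψ
              have : φ = t + 1 := hφ
              rw [this]
              exact hψ.2
            rw [hv, hv0, zero_comp]
          · have hcR' : cls R = (k - (l + m)) • δ +
                ∑ x, (c x - if x = j then 1 else 0) • α x := by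
              rw [hsum, sub_smul]
              have h1 : cls R = cls G - cls X' := by rw [hcR]; abel
              rw [h1, hcls, hX'S.2]
              abel
            have hcRi : 1 ≤ c i - if i = j then 1 else 0 := by
              rw [if_neg (Ne.symm hji)]
              omega
            have hR0' := hne R _ _ hcR' hcRi
            have hRTF : σ.TF t R := σ.tf_of_in hR hR0'
            have hXim := σ.gap_tf hε hgap hX'S.1
            have hRim : σ.im t (cls R) < N * ε := by
              rw [hcR, map_add] at hGN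
              push_cast at hGN
              linarith
            obtain ⟨u, hu⟩ := ih R hRTF hRim _ _ hcR' hcRi
            refine ⟨(g ≫ b1) ≫ u, fun h0 => hu ?_⟩
            obtain ⟨r, hr⟩ : ∃ r : X'⟦(1 : ℤ)⟧ ⟶ Q, u = d3 ≫ r :=
              Triangle.yoneda_exact₃ _ hX' u h0
            rw [hr, σ.hom_shift_zero hX'H hQh r, comp_zero]
        · -- the object is orthogonal to everything
          exfalso
          have z1 : ∀ (j : Fin n) (l : ℤ) (X : C), IsS σ t δ α j l X → ∀ f : G ⟶ X, f = 0 := by
            intro j l X hX f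
            by_contra hf
            exact c1 ⟨j, l, X, f, hX, hf⟩
          have z2 : ∀ (j : Fin n) (l : ℤ) (X : C), IsS σ t δ α j l X → ∀ f : X ⟶ G, f = 0 := by
            intro j l X hX f
            by_contra hf
            exact c2 ⟨j, l, X, f, hX, hf⟩
          have hchi : ∀ (j : Fin n) (l : ℤ) (X : C), IsS σ t δ α j l X →
              eulerForm h.k3 (α j) (cls G) =
                -(Module.finrank ℂ (X ⟶ G⟦(1 : ℤ)⟧) : ℤ) := by
            intro j l X hX
            have h1 := Slicing.Heart.eulerChar h.k3 hX.1.1 hGh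
            rw [finrank_of_forall_zero (z1 j l X hX), finrank_of_forall_zero (z2 j l X hX),
              ← eulerForm_cls h.k3, hX.2, hδ] at h1
            rw [h1]
            simp
          have hneg : ∀ j, eulerForm h.k3 (α j) (cls G) ≤ 0 := by
            intro j
            obtain ⟨X, hX, -⟩ := c_EXI C h σ t δ n α hF j 0
            rw [hchi j 0 X hX]
            have h1 : (0 : ℤ) ≤ (Module.finrank ℂ (X ⟶ G⟦(1 : ℤ)⟧) : ℤ) := Int.natCast_nonneg _
            linarith
          obtain ⟨k1, c', hc'⟩ := c_HCL C h σ t δ n α hF G hGh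
          have hself : eulerForm h.k3 (cls G) (cls G) ≤ 0 := by
            have h1 : eulerForm h.k3 (cls G) (cls G) =
                ∑ j, (c' j : ℤ) * eulerForm h.k3 (α j) (cls G) := by
              have h2 : eulerForm h.k3 (cls G) (k1 • δ + ∑ j, (c' j : ℤ) • α j) =
                  ∑ j, (c' j : ℤ) * eulerForm h.k3 (α j) (cls G) := by
                have h3 : eulerForm h.k3 (cls G) δ = 0 := by
                  rw [hB.symm]
                  exact hF.rad (cls G)
                rw [map_add, map_zsmul, h3, smul_zero, zero_add, map_sum]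
                refine Finset.sum_congr rfl fun j _ => ?_
                rw [map_zsmul, hB.symm, smul_eq_mul]
              rw [← hc'] at h2
              exact h2
            rw [h1]
            refine Finset.sum_nonpos fun j _ => ?_
            exact mul_nonpos_of_nonneg_of_nonpos (Int.natCast_nonneg _) (hneg j)
          have hrad : cls G ∈ radical (eulerForm h.k3) :=
            hB.mem_radical_of_self (le_antisymm hself (hB.nonneg _))
          refine hG.2.1 (c_ORT C h σ t δ n α hF G ?_)
          intro j l X hX m f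
          have hz : Module.finrank ℂ (X ⟶ G⟦m⟧) = 0 := by
            by_cases hm : m < 0 ∨ 2 < m
            · exact Slicing.Heart.finrank_zero h.k3 hX.1.1 hGh hm
            · have hm' : m = 0 ∨ m = 1 ∨ m = 2 := by omega
              rcases hm' with rfl | rfl | rfl
              · rw [finrank_shift_zero]
                exact finrank_of_forall_zero (z2 j l X hX)
              · have h1 := hchi j l X hX
                have h2 : eulerForm h.k3 (α j) (cls G) = 0 := by
                  rw [hB.symm]
                  exact hrad (α j)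
                rw [h2] at h1
                omega
              · rw [← h.k3.serre G X]
                exact finrank_of_forall_zero (z1 j l X hX)
          exact forall_zero_of_finrank h.k3 hz f
  obtain ⟨N, hN⟩ := exists_nat_gt (σ.im t (cls G0) / ε)
  have h1 := hmain N G0 hG0 ((div_lt_iff₀ hε).1 hN) k0 c0 hcls0 hci0
  exact ⟨h1, (KSP_iff hF.toTubeHyp hG0 hQP).1 h1⟩

end

end Pool.Align
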