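import Mathlib
import Pool.Agent.Work.MP_841263_kk.Interface

/-! # Lemma (K), block KUQ: quotients and subobjects of a radical semistable object without maps to `G` -/

open CategoryTheory CategoryTheory.Limits CategoryTheory.Pretriangulated
open scoped ZeroObject Topology
open Filter

set_option backward.isDefEq.respectTransparency false
set_option backward.defeqAttrib.useBackward true
set_option linter.unusedSectionVars false

namespace Pool.Align

open Pool.Stab Pool.Tube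

universe v u

lemma KUQ_list {φ : ℝ} : ∀ l : List ℝ, (∀ ψ ∈ l, ψ < φ + 1) →
    ∃ η : ℝ, 0 < η ∧ η ≤ 1 ∧ ∀ ψ ∈ l, ψ ≤ φ + 1 - η := by
  intro l
  induction l with
  | nil => exact fun _ => ⟨1, one_pos, le_refl _, by simp⟩
  | cons x l ih =>
    intro h
    obtain ⟨η, h1, h2, h3⟩ := ih (fun ψ hψ => h ψ (by simp [hψ]))
    have hx : x < φ + 1 := h x (by simp)
    refine ⟨min η (φ + 1 - x), lt_min h1 (by linarith), (min_le_left _ _).trans h2, ?_⟩
    intro ψ hψ
    have h4 : min η (φ + 1 - x) ≤ η := min_le_left _ _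
    have h5 : min η (φ + 1 - x) ≤ φ + 1 - x := min_le_right _ _
    rcases List.mem_cons.1 hψ with rfl | hψ'
    · linarith
    · have := h3 ψ hψ'
      linarith

/-- KUQ. -/
theorem p_KUQ {C : Type u} [Category.{v} C] [Preadditive C] [HasZeroObject C] [HasShift C ℤ]
    [∀ n : ℤ, (shiftFunctor C n).Additive] [Pretriangulated C] [IsTriangulated C] [Linear ℂ C]
    [∀ n : ℤ, (shiftFunctor C n).Linear ℂ] : Stmt_KUQ C := by
  intro h σ φ N G hN hG hNG hrad A B a b c hT hA hB
  have hBG : ∀ f : B ⟶ G, f = 0 := by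
    intro f
    obtain ⟨g, hg⟩ := Triangle.yoneda_exact₃ _ hT f (hNG _)
    have hA1 : σ.sl.P (φ + 1) (A⟦(1 : ℤ)⟧) := (σ.sl.shift_mem φ A).1 hA
    have hA2 : σ.sl.In ({φ + 1} : Set ℝ) (A⟦(1 : ℤ)⟧) := Slicing.in_of_P hA1 rfl
    have hg0 : g = 0 := by
      refine Slicing.In.hom_zero hA2 hG ?_ g
      intro x hx y hy
      rw [Set.mem_singleton_iff.1 hx]
      exact hy.2
    rw [hg, hg0, comp_zero]
  have hGB : ∀ f : G ⟶ B, f = 0 := by
    intro f
    have hB2 : σ.sl.In ({φ} : Set ℝ) B := Slicing.in_of_P hB rfl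
    refine Slicing.In.hom_zero hG hB2 ?_ f
    intro x hx y hy
    rw [Set.mem_singleton_iff.1 hy]
    exact hx.1
  obtain ⟨l, hl, hI⟩ := hG
  obtain ⟨η, h1, h2, h3⟩ := KUQ_list (φ := φ) l (fun ψ hψ => (hI ψ hψ).2)
  have hGh : σ.sl.Heart (φ - η) G := by
    refine ⟨l, hl, fun ψ hψ => ⟨?_, ?_⟩⟩
    · have := (hI ψ hψ).1
      linarith
    · have := h3 ψ hψ
      linarith
  have hBh : σ.sl.Heart (φ - η) B :=
    Slicing.in_of_P hB (show φ ∈ Set.Ioc (φ - η) (φ - η + 1) from ⟨by linarith, by linarith⟩)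
  have h4 := hBh.eulerChar h.k3 hGh
  rw [finrank_of_forall_zero hBG, finrank_of_forall_zero hGB] at h4
  have h5 : eulerForm h.k3 (cls B) (cls G) ≤ 0 := by
    rw [eulerForm_cls, h4]
    push_cast
    have : (0 : ℤ) ≤ (Module.finrank ℂ (B ⟶ G⟦(1 : ℤ)⟧) : ℤ) := by positivity
    linarith
  have h6 : cls N = cls A + cls B := cls_mk hT
  have h7 : eulerForm h.k3 (cls N) (cls G) = 0 := hrad (cls G)
  rw [h6, map_add, AddMonoidHom.add_apply] at h7
  exact ⟨by linarith, h5⟩

end Pool.Align
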