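import Mathlib
import Pool.Agent.Work.MP_841263_kk.B_KLT
import Pool.Agent.Work.MP_841263_kk.B_KRC
import Pool.Agent.Work.MP_841263_kk.B_KPR
import Pool.Agent.Work.MP_841263_kk.B_KLO
import Pool.Agent.Work.MP_841263_kk.B_KFC
import Pool.Agent.Work.MP_841263_kk.B_KSE
import Pool.Agent.Work.MP_841263_kk.B_KUQ
import Pool.Agent.Work.MP_841263_kk.B_KRD
import Pool.Agent.Work.MP_841263_kk.B_KSP
import Pool.Agent.Work.MP_841263_kk.B_KNF
import Pool.Agent.Work.MP_841263_kk.B_KTB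
import Pool.Agent.Work.MP_841263_kk.B_KCI
import Pool.Agent.Work.MP_841263_kk.B_KPL
import Pool.Agent.Work.MP_841263_kk.B_KFI
import Pool.Agent.Work.MP_841263_kk.B_KGP
import Pool.Agent.Work.MP_841263_pt.All
import Pool.Agent.Work.MP_841263_al.B_LBL

/-!
# Lemma (K): all blocks composed
-/

open CategoryTheory CategoryTheory.Limits CategoryTheory.Pretriangulated
open scoped ZeroObject Topology

namespace Pool.Align

open Pool.Stab Pool.Tube

universe v u

variable (C : Type u) [Category.{v} C] [Preadditive C] [HasZeroObject C] [HasShift C ℤ]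
  [∀ n : ℤ, (shiftFunctor C n).Additive] [Pretriangulated C] [IsTriangulated C] [Linear ℂ C]
  [∀ n : ℤ, (shiftFunctor C n).Linear ℂ]

theorem q_KLT : Stmt_KLT.{u} := p_KLT
theorem q_KRC : Stmt_KRC.{u} := p_KRC p_LBL
theorem q_KPR : Stmt_KPR.{u} := p_KPR
theorem q_KLO : Stmt_KLO C := p_KLO (q_PGA C)
theorem q_KFC : Stmt_KFC C := p_KFC
theorem q_KSE : Stmt_KSE C := p_KSE (q_KFC C)
theorem q_KUQ : Stmt_KUQ C := p_KUQ
theorem q_KRD : Stmt_KRD C := p_KRD (q_PTD C) (q_PBU C) (q_PNP C) q_PGE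
theorem q_KSP : Stmt_KSP C := p_KSP
theorem q_KNF : Stmt_KNF C := p_KNF (q_PLO C) (q_KLO C)
theorem q_KTB : Stmt_KTB C := p_KTB q_KLT q_PGE (q_PNP C) (q_KLO C) (q_KNF C)
theorem q_KCI : Stmt_KCI C := p_KCI
theorem q_KPL : Stmt_KPL C := p_KPL (q_KSP C) (q_KCI C)
theorem q_KFI : Stmt_KFI C :=
  p_KFI q_KRC (q_KSE C) (q_KTB C) (q_KCI C) (q_KPL C) (q_KSP C)

/-- **Lemma (K)**: a nonzero semistable object `N` of radical class and phase `φ` has a nonzero
morphism to every object `E` with phases in `(φ - 1, φ + 1)`, radical class and `0 < im`. -/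
theorem q_KGP : Stmt_KGP C := p_KGP q_PRK q_KPR (q_KUQ C) (q_KRD C) (q_KFI C)

end Pool.Align
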