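import Mathlib
import Pool.Agent.Work.MP_841263_kk.Interface
import Pool.Agent.Work.MP_841263_al.B_TUP
import Pool.Agent.Work.MP_841263_tu.All

/-!
# Block KTB: a stability condition close to `σ` with a tube in the direction of `r`
-/

open CategoryTheory CategoryTheory.Limits CategoryTheory.Pretriangulated
open scoped ZeroObject Topology
open Filter

set_option backward.isDefEq.respectTransparency false
set_option backward.defeqAttrib.useBackward true
set_option linter.unusedSectionVars false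

namespace Pool.Align

open Pool.Stab Pool.Tube

universe v u

lemma KTB_eps (a b : ℝ) : ∀ l : List ℝ, (∀ φ ∈ l, φ ∈ Set.Ioo a b) →
    ∃ η : ℝ, 0 < η ∧ ∀ φ ∈ l, a < φ - η ∧ φ + η < b := by
  intro l
  induction l with
  | nil =>
    intro _
    exact ⟨1, one_pos, by simp⟩
  | cons x l ih =>
    intro hl
    obtain ⟨η, hη, h⟩ := ih (fun φ hφ => hl φ (by simp [hφ]))
    have hx := hl x (by simp)
    have h1 : a < x := hx.1
    have h2 : x < b := hx.2
    refine ⟨min η (min ((x - a) / 2) ((b - x) / 2)), ?_, ?_⟩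
    · refine lt_min hη (lt_min ?_ ?_) <;> linarith
    · intro φ hφ
      have m1 : min η (min ((x - a) / 2) ((b - x) / 2)) ≤ η := min_le_left _ _
      have m2 : min η (min ((x - a) / 2) ((b - x) / 2)) ≤ (x - a) / 2 :=
        (min_le_right _ _).trans (min_le_left _ _)
      have m3 : min η (min ((x - a) / 2) ((b - x) / 2)) ≤ (b - x) / 2 :=
        (min_le_right _ _).trans (min_le_right _ _)
      rcases List.mem_cons.1 hφ with rfl | hφ
      · exact ⟨by linarith, by linarith⟩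
      · have h3 := h φ hφ
        exact ⟨by linarith [h3.1], by linarith [h3.2]⟩

/-- The phase is small if the slope is. -/
lemma KTB_sin {m x ε : ℝ} (hm : 0 < m) (hx0 : 0 < x) (hx1 : x < 1) (hε : 0 < ε)
    (hε' : ε ≤ 1 / 16) (hre : 0 < m * Real.cos (Real.pi * x))
    (h : m * Real.sin (Real.pi * x) ≤ Real.sin (Real.pi * ε) * (m * Real.cos (Real.pi * x))) :
    x ≤ ε := by
  have hpi := Real.pi_pos
  have hc : 0 < Real.cos (Real.pi * x) := by
    by_contra hc
    have := mul_nonpos_of_nonneg_of_nonpos hm.le (not_lt.1 hc)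
    linarith
  have hx2 : x < 1 / 2 := by
    by_contra hx2
    have h1 : 1 / 2 ≤ x := not_lt.1 hx2
    have h2 : Real.cos (Real.pi * x) ≤ 0 := by
      refine Real.cos_nonpos_of_pi_div_two_le_of_le ?_ ?_
      · nlinarith
      · nlinarith
    linarith
  have hs0 : 0 < Real.sin (Real.pi * ε) := by
    refine Real.sin_pos_of_pos_of_lt_pi (by positivity) ?_
    nlinarith
  have h1 : Real.sin (Real.pi * x) ≤ Real.sin (Real.pi * ε) * Real.cos (Real.pi * x) := by
    have h2 : m * Real.sin (Real.pi * x) ≤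
        m * (Real.sin (Real.pi * ε) * Real.cos (Real.pi * x)) := by linarith
    exact le_of_mul_le_mul_left h2 hm
  have h3 : Real.sin (Real.pi * x) ≤ Real.sin (Real.pi * ε) := by
    have h4 := mul_le_mul_of_nonneg_left (Real.cos_le_one (Real.pi * x)) hs0.le
    linarith
  by_contra hlt
  have h5 : ε < x := not_le.1 hlt
  have h6 : Real.sin (Real.pi * ε) < Real.sin (Real.pi * x) := by
    refine Real.sin_lt_sin_of_lt_of_le_pi_div_two ?_ ?_ ?_
    · nlinarith
    · nlinarith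
    · nlinarith
  linarith

/-- The choice of the representative. -/
lemma KTB_int {a ρ : ℝ} (hρ : 0 < ρ) : ∃ k : ℤ, 0 < a + k * (-ρ) ∧ a + k * (-ρ) ≤ ρ := by
  refine ⟨⌈a / ρ⌉ - 1, ?_, ?_⟩
  · have h1 := Int.ceil_lt_add_one (a / ρ)
    have h2 : ((⌈a / ρ⌉ : ℝ) - 1) * ρ < a := by
      have h3 : (⌈a / ρ⌉ : ℝ) - 1 < a / ρ := by linarith
      have h4 := mul_lt_mul_of_pos_right h3 hρ
      rwa [div_mul_cancel₀ _ hρ.ne'] at h4
    push_cast
    linarith
  · have h1 := Int.le_ceil (a / ρ)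
    have h2 : a ≤ (⌈a / ρ⌉ : ℝ) * ρ := by
      have h4 := mul_le_mul_of_nonneg_right h1 hρ.le
      rwa [div_mul_cancel₀ _ hρ.ne'] at h4
    push_cast
    linarith

/-- Adding a radical class does not change the norm. -/
lemma KTB_norm {K : Type*} [AddCommGroup K] {B : K →+ K →+ ℤ} (hB : IsPSD B) {s : K}
    (hs : s ∈ radical B) (x : K) : B (x + s) (x + s) = B x x := by
  have h1 : ∀ y, B s y = 0 := hs
  have h2 : B x s = 0 := by rw [hB.symm, h1]
  simp only [map_add, AddMonoidHom.add_apply, h1, h2, add_zero]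

variable {C : Type u} [Category.{v} C] [Preadditive C] [HasZeroObject C] [HasShift C ℤ]
  [∀ n : ℤ, (shiftFunctor C n).Additive] [Pretriangulated C] [IsTriangulated C] [Linear ℂ C]
  [∀ n : ℤ, (shiftFunctor C n).Linear ℂ]

theorem KTB_rot (ψ a : ℝ) : ((a : ℝ) : ℂ) * Complex.I * Complex.exp (Real.pi * ψ * Complex.I) *
    Complex.exp (-(Real.pi * ψ * Complex.I)) = (a : ℂ) * Complex.I := by
  rw [mul_assoc, ← Complex.exp_add, add_neg_cancel, Complex.exp_zero, mul_one]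

theorem KTB_im {σ τ : StabCond C} {ψ : ℝ} {w : K0 C →+ ℝ} {η : ℝ} (h : ChargeMove σ τ ψ w η)
    (x : K0 C) : τ.im ψ x = σ.im ψ x + η * w x := by
  rw [StabCond.im_apply, StabCond.im_apply, h x, add_mul, Complex.add_im, KTB_rot]
  simp

theorem KTB_re {σ τ : StabCond C} {ψ : ℝ} {w : K0 C →+ ℝ} {η : ℝ} (h : ChargeMove σ τ ψ w η)
    (x : K0 C) : τ.re ψ x = σ.re ψ x := by
  rw [StabCond.re_apply, StabCond.re_apply, h x, add_mul, Complex.add_re, KTB_rot]
  simp

theorem KTB_re_succ (σ : StabCond C) (φ : ℝ) (x : K0 C) : σ.re (φ + 1) x = - σ.re φ x := by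
  rw [StabCond.re_apply, StabCond.re_apply]
  have h1 : Complex.exp (-(Real.pi * ((φ + 1 : ℝ) : ℂ) * Complex.I)) =
      - Complex.exp (-(Real.pi * (φ : ℂ) * Complex.I)) := by
    have h2 : (-(Real.pi * ((φ + 1 : ℝ) : ℂ) * Complex.I) : ℂ) =
        -(Real.pi * (φ : ℂ) * Complex.I) + -(Real.pi * Complex.I) := by
      push_cast
      ring
    rw [h2, Complex.exp_add, Complex.exp_neg (Real.pi * Complex.I), Complex.exp_pi_mul_I]
    norm_num
  rw [h1, mul_neg, Complex.neg_re]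

theorem KTB_near {σ τ : StabCond C} {a b : ℝ} (hab : a ≤ b) (h : StabCond.Near a σ τ) :
    StabCond.Near b σ τ := fun φ X hX =>
  (h φ X hX).mono (Set.Icc_subset_Icc (by linarith) (by linarith))

theorem KTB_in {σ τ : StabCond C} {a b ε : ℝ} (h : StabCond.Near ε τ σ) {X : C}
    (hX : σ.sl.In {ψ : ℝ | a < ψ - ε ∧ ψ + ε < b} X) : τ.sl.In (Set.Ioo a b) X := by
  have h1 : τ.sl.In (Set.Ioi a) X := h.up (isUpperSet_Ioi a) (fun ψ hψ => hψ.1) hX
  have h2 : τ.sl.In (Set.Ici b)ᶜ X := h.low (isUpperSet_Ici b) (fun ψ hψ => not_le.2 hψ.2) hX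
  exact (Slicing.In.inter (isUpperSet_Ioi a) (isUpperSet_Ici b) h1 h2).mono
    (fun ψ hψ => ⟨hψ.1, not_le.1 hψ.2⟩)

theorem p_KTB : Stmt_KLT.{u} → Stmt_PGE.{u} → Stmt_PNP C → Stmt_KLO C → Stmt_KNF C →
    Stmt_KTB C := by
  intro hKLT hPGE hPNP hKLO hKNF h σ φ r hr hprim him hre N G F hN hN0 hG hF
  have := h.finite
  have := h.free
  have hpi := Real.pi_pos
  obtain ⟨w, hw⟩ := TUP_generic (eulerForm h.k3)
  obtain ⟨ε₁, hε₁, hε₁', H1⟩ := hKLO h σ φ (σ.re φ r)
  obtain ⟨ε₂, hε₂, hε₂', H2⟩ := hKLO h σ (φ + 1) (σ.re φ r)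
  obtain ⟨ε₃, hε₃, H3⟩ := hKNF h σ φ N hN hN0
  obtain ⟨lG, hlG, hIG⟩ := hG
  obtain ⟨ε₄, hε₄, H4⟩ := KTB_eps φ (φ + 1) lG hIG
  obtain ⟨lF, hlF, hIF⟩ := hF
  obtain ⟨ε₅, hε₅, H5⟩ := KTB_eps (φ - 1) φ lF hIF
  obtain ⟨ε, hε, e1, e2, e3, e4, e5⟩ : ∃ ε : ℝ, 0 < ε ∧ ε ≤ ε₁ ∧ ε ≤ ε₂ ∧ ε ≤ ε₃ ∧ ε ≤ ε₄ ∧
      ε ≤ ε₅ := by
    refine ⟨min ε₁ (min ε₂ (min ε₃ (min ε₄ ε₅))),
      lt_min hε₁ (lt_min hε₂ (lt_min hε₃ (lt_min hε₄ hε₅))), min_le_left _ _, ?_, ?_, ?_, ?_⟩
    · exact (min_le_right _ _).trans (min_le_left _ _)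
    · exact (min_le_right _ _).trans ((min_le_right _ _).trans (min_le_left _ _))
    · exact (min_le_right _ _).trans ((min_le_right _ _).trans
        ((min_le_right _ _).trans (min_le_left _ _)))
    · exact (min_le_right _ _).trans ((min_le_right _ _).trans
        ((min_le_right _ _).trans (min_le_right _ _)))
  have hε16 : ε ≤ 1 / 16 := e1.trans hε₁'
  have hκ : 0 < Real.sin (Real.pi * ε) :=
    Real.sin_pos_of_pos_of_lt_pi (by positivity) (by nlinarith)
  have hrad : ∃ s ∈ radical (eulerForm h.k3), σ.im φ s ≠ 0 := by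
    have h1 := σ.radical_not_line h.k3 h.psd' h.indec (rankTwoLe_of_finrank h.k3 h.rank) φ
    push Not at h1
    exact h1
  obtain ⟨η₀, hη₀, HK⟩ := hKLT (K0 C) (eulerForm h.k3) (σ.im φ) (σ.re φ) w r h.psd' h.rank hr
    him hre hrad (fun s hs => (hw s).2 hs) _ hκ
  obtain ⟨η₁, hη₁, hpath⟩ := hPNP h σ φ w ε hε
  obtain ⟨η, hη, hη', hgen⟩ := hPGE (K0 C) (σ.im φ) w (min η₀ η₁) (lt_min hη₀ hη₁)
  obtain ⟨HK1, HK2⟩ := HK η hη (hη'.trans (min_le_left _ _))
  obtain ⟨τ, -, hc, n1, n2⟩ := hpath η hη.le (hη'.trans (min_le_right _ _))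
  have tim : ∀ x, τ.im φ x = σ.im φ x + η * w x := KTB_im hc
  have tre : ∀ x, τ.re φ x = σ.re φ x := KTB_re hc
  have hwr : w r = 0 := (hw r).2 hr
  have hr' : -r ∈ radical (eulerForm h.k3) := neg_mem hr
  have hT : TubeHyp h τ φ (-r) := by
    refine ⟨hr', ?_, ?_, ?_, ?_, ?_⟩
    · intro h0
      have h1 : r = 0 := neg_eq_zero.1 h0
      rw [h1, map_zero] at hre
      exact lt_irrefl _ hre
    · intro x m hx
      have h1 : r = (-m) • x := by rw [neg_smul, ← hx, neg_neg]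
      rcases hprim x (-m) h1 with h2 | h2
      · right; linarith
      · left; linarith
    · rw [map_neg, tim, him, hwr, mul_zero, add_zero, neg_zero]
    · rw [map_neg, tre]
      linarith
    · intro x hx h0
      rw [tim] at h0
      have h1 := (hw x).1 (hgen x h0).2
      have h2 : eulerForm h.k3 x x = 0 := h1 x
      rw [hx] at h2
      norm_num at h2
  obtain ⟨n, α, hS⟩ := c_BAS (K0 C) (eulerForm h.k3) (τ.im φ) (-r) (c_LHY C h τ φ (-r) hT)
  have hFr : Frame h τ φ (-r) α := { toTubeHyp := hT, toSimpleRoots := hS }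
  refine ⟨τ, n, α, ⟨hFr, ?_, him, ?_, ?_, ?_⟩, ?_, ?_, ?_⟩
  · intro s hs
    rw [tim, (hw s).2 hs, mul_zero, add_zero]
  · intro i
    by_contra hneg
    have h1 : 0 < σ.im φ (-α i) := by
      rw [map_neg]
      linarith [not_le.1 hneg]
    have h2 : eulerForm h.k3 (-α i) (-α i) ≤ 2 := by
      rw [map_neg, map_neg, AddMonoidHom.neg_apply, neg_neg, hS.norm i]
    have h3 := HK1 (-α i) h2 h1
    have h4 := hS.pos i
    rw [tim] at h4
    rw [map_neg, map_neg] at h3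
    linarith
  · intro Q hQ
    obtain ⟨hcQ, -⟩ := c_PTL C h τ φ (-r) n α hFr Q hQ
    refine H2 Q ((n1 (φ + 1) Q hQ.1).mono (Set.Icc_subset_Icc (by linarith) (by linarith))) ?_
    rw [KTB_re_succ, hcQ, map_neg, neg_neg]
  · intro i hi
    obtain ⟨k, hk1, hk2⟩ := KTB_int (a := σ.re φ (α i)) hre
    obtain ⟨X, hX, -, ψ, hψ1, hψ2, hXP⟩ := c_EXI C h τ φ (-r) n α hFr i k
    refine ⟨k, X, hX, ?_⟩
    have hX0 : ¬ IsZero X := hX.1.2.1
    have hxre : σ.re φ (cls X) = σ.re φ (α i) + k * (-σ.re φ r) := by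
      rw [hX.2, map_add, map_zsmul, map_neg, zsmul_eq_mul]
    have hxim : σ.im φ (cls X) = 0 := by
      rw [hX.2, map_add, map_zsmul, map_neg, him, hi, neg_zero, smul_zero, add_zero]
    have hn : eulerForm h.k3 (cls X) (cls X) ≤ 2 := by
      rw [hX.2, KTB_norm h.psd' (Submodule.smul_mem _ k hr'), hS.norm i]
    have h1 := HK2 (cls X) hn hxim (by rw [hxre]; exact hk1) (by rw [hxre]; exact hk2)
    obtain ⟨hpos, hpre, hpim⟩ := τ.polar φ hXP hX0
    have h2 : τ.im φ (cls X) ≤ Real.sin (Real.pi * ε) * τ.re φ (cls X) := by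
      rw [tim, tre, hxim, zero_add]
      refine le_trans ?_ h1
      exact mul_le_mul_of_nonneg_left (le_abs_self _) hη.le
    have h3 : 0 < τ.re φ (cls X) := by rw [tre, hxre]; exact hk1
    rw [hpre] at h2 h3
    rw [hpim] at h2
    have h4 : ψ - φ ≤ ε := KTB_sin hpos (by linarith) (by linarith) hε hε16 h3 h2
    refine H1 X ((n1 ψ X hXP).mono (Set.Icc_subset_Icc (by linarith) (by linarith))) ?_
    rw [hxre]
    exact hk2
  · exact KTB_in (KTB_near e4 n2) ⟨lG, hlG, H4⟩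
  · exact KTB_in (KTB_near e5 n2) ⟨lF, hlF, H5⟩
  · exact H3 τ (KTB_near e3 n1) (KTB_near e3 n2)

end Pool.Align
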